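import Mathlib

open scoped MultiplierAlgebra
open Filter Topology

namespace Pool.Agent.Work.MP_86e2e0_an

/-- A C*-algebra is simple if it is nonzero and its only closed two-sided ideals are `0` and the
whole algebra. -/
def IsSimpleCStar (A : Type) [NonUnitalCStarAlgebra A] : Prop :=
  Nontrivial A ∧ ∀ I : TwoSidedIdeal A, IsClosed (I : Set A) → I = ⊥ ∨ I = ⊤

/-- Positive elements of a C*-algebra: those of the form `y* y`. -/
def IsPos {A : Type} [NonUnitalCStarAlgebra A] (x : A) : Prop := ∃ y : A, x = star y * y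

/-- The sequence `(e_n)` extended by `e_k = 0` for `k < 0`. -/
def ext0 {A : Type} [NonUnitalCStarAlgebra A] (e : ℕ → A) (k : ℤ) : A :=
  if 0 ≤ k then e k.toNat else 0

/-- `g_I = e_{max I} - e_{min I - 1}` for the interval `I = [a, b]`. -/
def gI {A : Type} [NonUnitalCStarAlgebra A] (e : ℕ → A) (a b : ℕ) : A :=
  ext0 e b - ext0 e ((a : ℤ) - 1)

/-- Good approximate identities. -/
structure IsGood {A : Type} [NonUnitalCStarAlgebra A] (e : ℕ → A) : Prop where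
  pos : ∀ n, IsPos (e n)
  norm_le : ∀ n, ‖e n‖ ≤ 1
  tendsto_left : ∀ a : A, Tendsto (fun n => e n * a) atTop (𝓝 a)
  tendsto_right : ∀ a : A, Tendsto (fun n => a * e n) atTop (𝓝 a)
  mul_eq : ∀ n, e (n + 1) * e n = e n
  norm_sub : ∀ n, ‖e (n + 1) - e n‖ = 1
  interval : ∃ h : ℕ → ℕ → A,
    (∀ a b : ℕ, a ≤ b →
      IsPos (h a b) ∧ ‖h a b‖ ≤ 1 ∧
      IsPos (ext0 e ((b : ℤ) + 1) - ext0 e ((a : ℤ) - 2) - h a b) ∧
      h a b * gI e a b = gI e a b) ∧
    ∀ a b a' b' : ℕ, a ≤ b → a' ≤ b' → b + 1 < a' → h a b * h a' b' = 0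

/-- `x = ∑_{n ∈ L} g n`, the sum converging (unconditionally) in the strict topology of the
multiplier algebra. -/
def IsStrictSum {A : Type} [NonUnitalCStarAlgebra A] (g : ℕ → A) (L : Set ℕ) (x : 𝓜(ℂ, A)) :
    Prop :=
  ∀ a : A, HasSum (fun n : L => g n * a) (x.fst a) ∧ HasSum (fun n : L => a * g n) (x.snd a)

/-- Nonmeagre ideals of the multiplier algebra. -/
def IsNonmeagre {A : Type} [NonUnitalCStarAlgebra A] (I : TwoSidedIdeal 𝓜(ℂ, A)) : Prop :=
  ∀ e : ℕ → A, IsGood e → ∀ c : ℕ → ℕ, StrictMono c → c 0 = 0 →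
    ∃ L : Set ℕ, L.Infinite ∧ ∃ x ∈ I, IsStrictSum (fun n => gI e (c n) (c (n + 1) - 1)) L x

end Pool.Agent.Work.MP_86e2e0_an
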