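import Mathlib

open Filter Topology

namespace Pool.Agent.Work.MP_86e2e0_an

/-- code of the first `n` bits of `x`. -/
noncomputable def code (x : ℕ → Bool) (n : ℕ) : ℕ :=
  Encodable.encode (List.ofFn (fun i : Fin n => x i))

lemma code_eq {x y : ℕ → Bool} {n m : ℕ} (h : code x n = code y m) :
    n = m ∧ ∀ i < n, x i = y i := by
  have h1 : List.ofFn (fun i : Fin n => x i) = List.ofFn (fun i : Fin m => y i) :=
    Encodable.encode_injective h
  have hn : n = m := by
    have := congrArg List.length h1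
    simpa using this
  subst hn
  refine ⟨rfl, fun i hi => ?_⟩
  have h2 := List.ofFn_injective h1
  exact congrFun h2 ⟨i, hi⟩

lemma code_injective (x : ℕ → Bool) : Function.Injective (code x) := fun _ _ h => (code_eq h).1

/-- an almost disjoint family indexed by `ℕ → Bool`. -/
noncomputable def AD (x : ℕ → Bool) : Set ℕ := Set.range (code x)

lemma AD_infinite (x : ℕ → Bool) : (AD x).Infinite :=
  Set.infinite_range_of_injective (code_injective x)

lemma AD_inter_finite {x y : ℕ → Bool} (h : x ≠ y) : (AD x ∩ AD y).Finite := by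
  obtain ⟨i, hi⟩ := Function.ne_iff.mp h
  refine Set.Finite.subset ((Set.finite_Iic i).image (code x)) ?_
  rintro k ⟨⟨n, rfl⟩, ⟨m, hm⟩⟩
  obtain ⟨h1, h2⟩ := code_eq hm.symm
  refine ⟨n, ?_, rfl⟩
  by_contra hn
  simp only [Set.mem_Iic, not_le] at hn
  exact hi (h2 i hn)

/-- Selection lemma: for a nonnegative array with row sums at most one and columns tending to zero,
some infinite set of columns has row sums tending to zero along a given ultrafilter. -/
theorem exists_small_set (t : ℕ → ℕ → ℝ) (h0 : ∀ n k, 0 ≤ t n k)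
    (h1 : ∀ n (F : Finset ℕ), ∑ k ∈ F, t n k ≤ 1)
    (h2 : ∀ k, Tendsto (fun n => t n k) atTop (𝓝 0)) (U : Ultrafilter ℕ)
    (hU : (U : Filter ℕ) ≤ atTop) :
    ∃ L : Set ℕ, L.Infinite ∧ ∀ ε > 0, ∀ᶠ n in (U : Filter ℕ), ∀ F : Finset ℕ,
      (F : Set ℕ) ⊆ L → ∑ k ∈ F, t n k ≤ ε := by
  by_contra hcon
  push Not at hcon
  have hbad : ∀ x : ℕ → Bool, ∃ m : ℕ, ∀ᶠ n in (U : Filter ℕ), ∃ F : Finset ℕ,
      (F : Set ℕ) ⊆ AD x ∧ 1 / ((m : ℝ) + 1) < ∑ k ∈ F, t n k := by
    intro x
    obtain ⟨ε, hε, hx⟩ := hcon (AD x) (AD_infinite x)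
    obtain ⟨m, hm⟩ := exists_nat_one_div_lt hε
    refine ⟨m, ?_⟩
    filter_upwards [hx] with n hn
    obtain ⟨F, hF, hF'⟩ := hn
    exact ⟨F, hF, hm.trans hF'⟩
  choose m hm using hbad
  -- pigeonhole
  have hunc : ∃ M : ℕ, (m ⁻¹' {M}).Infinite := by
    by_contra hfin
    push Not at hfin
    have hc : (Set.univ : Set (ℕ → Bool)).Countable := by
      have : (Set.univ : Set (ℕ → Bool)) = ⋃ M, m ⁻¹' {M} := by
        ext x; simp
      rw [this]
      exact Set.countable_iUnion fun M => (Set.not_infinite.mp (by simpa using hfin M)).countable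
    have hc' : Countable (ℕ → Bool) := Set.countable_univ_iff.mp hc
    have := Cardinal.mk_le_aleph0 (α := ℕ → Bool)
    have h3 : Cardinal.mk (ℕ → Bool) = Cardinal.continuum := by
      rw [Cardinal.mk_pi]; simp
    rw [h3] at this
    exact absurd Cardinal.aleph0_lt_continuum (not_lt.mpr this)
  obtain ⟨M, hM⟩ := hunc
  -- choose `M + 2` distinct points
  obtain ⟨X, hXsub, hXcard⟩ := hM.exists_subset_card_eq (M + 2)
  -- a bound for all pairwise intersections
  have hK : ∃ K : ℕ, ∀ x ∈ X, ∀ y ∈ X, x ≠ y → ∀ k ∈ AD x ∩ AD y, k < K := by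
    have hfin : (⋃ x ∈ X, ⋃ y ∈ X, ⋃ _ : x ≠ y, AD x ∩ AD y).Finite := by
      refine Set.Finite.biUnion X.finite_toSet fun x _ => ?_
      refine Set.Finite.biUnion X.finite_toSet fun y _ => ?_
      refine Set.finite_iUnion fun h => AD_inter_finite h
    obtain ⟨K, hK⟩ := hfin.bddAbove
    refine ⟨K + 1, fun x hx y hy hxy k hk => ?_⟩
    refine Nat.lt_succ_of_le (hK ?_)
    simp only [Set.mem_iUnion]
    exact ⟨x, hx, y, hy, hxy, hk⟩
  obtain ⟨K, hK⟩ := hK
  set δ : ℝ := 1 / (((M : ℝ) + 1) * ((M : ℝ) + 2)) with hδ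
  have hδpos : 0 < δ := by positivity
  have hsmall : ∀ᶠ n in (U : Filter ℕ), ∑ k ∈ Finset.range K, t n k < δ := by
    have : Tendsto (fun n => ∑ k ∈ Finset.range K, t n k) atTop (𝓝 0) := by
      have := tendsto_finsetSum (Finset.range K) (fun k _ => h2 k)
      simpa using this
    exact hU (this.eventually (gt_mem_nhds hδpos))
  have hall : ∀ᶠ n in (U : Filter ℕ), ∀ x ∈ X, ∃ F : Finset ℕ,
      (F : Set ℕ) ⊆ AD x ∧ 1 / ((M : ℝ) + 1) < ∑ k ∈ F, t n k := by
    rw [Filter.eventually_all_finset]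
    intro x hx
    have := hm x
    have hxM : m x = M := hXsub hx
    rw [hxM] at this
    exact this
  obtain ⟨n, hn1, hn2⟩ := (hsmall.and hall).exists
  choose! F hF1 hF2 using hn2
  -- disjointified pieces
  have hdisj : (X : Set (ℕ → Bool)).PairwiseDisjoint (fun x => (F x) \ Finset.range K) := by
    intro x hx y hy hxy
    rw [Function.onFun, Finset.disjoint_left]
    intro k hkx hky
    simp only [Finset.mem_sdiff, Finset.mem_range] at hkx hky
    exact hkx.2 (hK x hx y hy hxy k ⟨hF1 x hx hkx.1, hF1 y hy hky.1⟩)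
  have hsum : ∑ x ∈ X, ∑ k ∈ (F x) \ Finset.range K, t n k ≤ 1 := by
    rw [← Finset.sum_biUnion hdisj]
    exact h1 n _
  have hlow : ∀ x ∈ X, 1 / ((M : ℝ) + 1) - δ < ∑ k ∈ (F x) \ Finset.range K, t n k := by
    intro x hx
    have h5 : ∑ k ∈ F x, t n k ≤ ∑ k ∈ (F x) \ Finset.range K, t n k
        + ∑ k ∈ Finset.range K, t n k := by
      have h6 : ∑ k ∈ F x, t n k = ∑ k ∈ (F x) \ Finset.range K, t n k
          + ∑ k ∈ (F x) ∩ Finset.range K, t n k := by
        rw [← Finset.sum_sdiff (s₁ := (F x) ∩ Finset.range K) (s₂ := F x) Finset.inter_subset_left]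
        congr 1
        refine Finset.sum_congr ?_ fun _ _ => rfl
        ext k; simp
      rw [h6]
      gcongr
      · intro i _ _; exact h0 n i
      · exact Finset.inter_subset_right
    linarith [hF2 x hx]
  have htot : ((M : ℝ) + 2) * (1 / ((M : ℝ) + 1) - δ) < 1 := by
    have hne : X.Nonempty := by
      rw [← Finset.card_pos, hXcard]; omega
    calc ((M : ℝ) + 2) * (1 / ((M : ℝ) + 1) - δ) = ∑ x ∈ X, (1 / ((M : ℝ) + 1) - δ) := by
          rw [Finset.sum_const, hXcard]; push_cast; ring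
      _ < ∑ x ∈ X, ∑ k ∈ (F x) \ Finset.range K, t n k := Finset.sum_lt_sum_of_nonempty hne hlow
      _ ≤ 1 := hsum
  have heq : ((M : ℝ) + 2) * (1 / ((M : ℝ) + 1) - δ) = 1 := by
    rw [hδ]; field_simp; ring
  linarith

end Pool.Agent.Work.MP_86e2e0_an
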