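import Mathlib
import Pool.Agent.Work.MP_86e2e0_an.Defs
import Pool.Agent.Work.MP_86e2e0_an.Select

open scoped MultiplierAlgebra
open Filter Topology

namespace Pool.Agent.Work.MP_86e2e0_an

variable {A : Type} [NonUnitalCStarAlgebra A]

lemma isPos_iff (x : A) : IsPos x ↔ (CStarAlgebra.spectralOrder A).le 0 x := by
  let _ := CStarAlgebra.spectralOrder A
  have _ := CStarAlgebra.spectralOrderedRing A
  exact CStarAlgebra.nonneg_iff_eq_star_mul_self.symm

/-- multiplier identity -/
lemma star_fst_mul (w : 𝓜(ℂ, A)) (u : A) :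
    star (w.fst u) * w.fst u = star u * (star w * w).fst u := by
  have h := (star w).central (star u) (w.fst u)
  rw [DoubleCentralizer.star_snd, star_star] at h
  rw [h]
  rfl

/-- A bounded positive tracial functional -/
structure IsTr (τ : A →L[ℂ] ℂ) : Prop where
  pos : ∀ a, 0 ≤ (τ (star a * a)).re
  tr : ∀ a b, τ (a * b) = τ (b * a)
  norm_le : ∀ a, ‖τ a‖ ≤ ‖a‖

namespace IsTr

variable {τ : A →L[ℂ] ℂ}

lemma nonneg (h : IsTr τ) {x : A} (hx : IsPos x) : 0 ≤ (τ x).re := by
  obtain ⟨y, rfl⟩ := hx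
  exact h.pos y

lemma re_le_norm (h : IsTr τ) (x : A) : (τ x).re ≤ ‖x‖ :=
  (Complex.re_le_norm _).trans (h.norm_le x)

lemma add_le (h : IsTr τ) (u v : A) :
    (τ (star (u + v) * (u + v))).re ≤ 2 * (τ (star u * u)).re + 2 * (τ (star v * v)).re := by
  have h1 := h.pos (u - v)
  have e1 : star (u + v) * (u + v) + star (u - v) * (u - v) =
      (star u * u + star u * u) + (star v * v + star v * v) := by
    simp only [star_add, star_sub]
    noncomm_ring
  have e2 := congrArg (fun z => (τ z).re) e1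
  simp only [map_add, Complex.add_re] at e2
  linarith

lemma mult_le (h : IsTr τ) (y : 𝓜(ℂ, A)) (u : A) :
    (τ (star (y.fst u) * y.fst u)).re ≤ ‖y‖ ^ 2 * (τ (star u * u)).re := by
  let _ := CStarAlgebra.spectralOrder 𝓜(ℂ, A)
  have _ := CStarAlgebra.spectralOrderedRing 𝓜(ℂ, A)
  have h1 : star y * y ≤ algebraMap ℝ 𝓜(ℂ, A) (‖y‖ ^ 2) :=
    CStarAlgebra.star_mul_le_algebraMap_norm_sq
  rw [← sub_nonneg] at h1
  obtain ⟨z, hz⟩ := CStarAlgebra.nonneg_iff_eq_star_mul_self.mp h1
  have h2 := h.pos (z.fst u)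
  rw [star_fst_mul, ← hz] at h2
  have h3 : (algebraMap ℝ 𝓜(ℂ, A) (‖y‖ ^ 2) - star y * y).fst u =
      ((‖y‖ ^ 2 : ℝ) : ℂ) • u - (star y * y).fst u := by
    have : (algebraMap ℝ 𝓜(ℂ, A) (‖y‖ ^ 2)) = algebraMap ℂ 𝓜(ℂ, A) ((‖y‖ ^ 2 : ℝ) : ℂ) := rfl
    rw [this, DoubleCentralizer.sub_fst, DoubleCentralizer.algebraMap_fst]
    simp [Algebra.algebraMap_eq_smul_one]
  rw [h3, mul_sub, map_sub, mul_smul_comm, map_smul, ← star_fst_mul] at h2
  simp only [Complex.sub_re, smul_eq_mul, Complex.re_ofReal_mul] at h2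
  linarith

lemma mono (h : IsTr τ) {x y : A} (hxy : (CStarAlgebra.spectralOrder A).le x y) :
    (τ x).re ≤ (τ y).re := by
  let _ := CStarAlgebra.spectralOrder A
  have _ := CStarAlgebra.spectralOrderedRing A
  have h1 : 0 ≤ y - x := sub_nonneg.mpr hxy
  have h2 := h.nonneg ((isPos_iff _).mpr h1)
  rw [map_sub, Complex.sub_re] at h2
  linarith

/-- `τ (a* s* s a) ≤ ‖a‖² τ (s* s)`. -/
lemma comp_le (h : IsTr τ) (s a : A) (ha : ‖a‖ ≤ 1) :
    (τ (star (s * a) * (s * a))).re ≤ (τ (star s * s)).re := by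
  let _ := CStarAlgebra.spectralOrder A
  have _ := CStarAlgebra.spectralOrderedRing A
  have h1 : s * (a * star a) * star s ≤ ‖a * star a‖ • (s * star s) :=
    CStarAlgebra.star_right_conjugate_le_norm_smul
  have h2 := h.mono h1
  have h3 : τ (star (s * a) * (s * a)) = τ (s * (a * star a) * star s) := by
    rw [h.tr, star_mul]; congr 1; noncomm_ring
  rw [h3]
  refine h2.trans ?_
  have h4 : ‖a * star a‖ • (s * star s) = ((‖a * star a‖ : ℝ) : ℂ) • (s * star s) := rfl
  rw [h4, map_smul, smul_eq_mul, Complex.re_ofReal_mul, h.tr]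
  have h5 : ‖a * star a‖ ≤ 1 := by
    rw [CStarRing.norm_self_mul_star]; nlinarith [norm_nonneg a]
  have h6 := h.pos s
  nlinarith

end IsTr

section ideal

variable (τ : ℕ → A →L[ℂ] ℂ) (U : Ultrafilter ℕ)

/-- The carrier of the ideal. -/
def carrier : Set 𝓜(ℂ, A) :=
  {x | ∀ ε > 0, ∀ᶠ n in (U : Filter ℕ), ∀ a : A, ‖a‖ ≤ 1 →
    ((τ n) (star (x.fst a) * x.fst a)).re ≤ ε}

variable {τ} {U}

lemma carrier_zero : (0 : 𝓜(ℂ, A)) ∈ carrier τ U := by
  intro ε hε
  refine Eventually.of_forall fun n a _ => ?_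
  simp [hε.le]

lemma carrier_add (hτ : ∀ n, IsTr (τ n)) {x y : 𝓜(ℂ, A)} (hx : x ∈ carrier τ U)
    (hy : y ∈ carrier τ U) : x + y ∈ carrier τ U := by
  intro ε hε
  filter_upwards [hx (ε / 4) (by positivity), hy (ε / 4) (by positivity)] with n h1 h2 a ha
  rw [DoubleCentralizer.add_fst, add_apply]
  have := (hτ n).add_le (x.fst a) (y.fst a)
  linarith [h1 a ha, h2 a ha]

lemma carrier_neg {x : 𝓜(ℂ, A)} (hx : x ∈ carrier τ U) : -x ∈ carrier τ U := by
  intro ε hε
  filter_upwards [hx ε hε] with n h1 a ha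
  rw [DoubleCentralizer.neg_fst]
  simpa using h1 a ha

lemma carrier_mul_left (hτ : ∀ n, IsTr (τ n)) {x y : 𝓜(ℂ, A)} (hy : y ∈ carrier τ U) :
    x * y ∈ carrier τ U := by
  intro ε hε
  have hpos : 0 < ‖x‖ ^ 2 + 1 := by positivity
  filter_upwards [hy (ε / (‖x‖ ^ 2 + 1)) (by positivity)] with n h1 a ha
  rw [DoubleCentralizer.mul_fst, mul_apply_eq_comp]
  refine ((hτ n).mult_le x (y.fst a)).trans ?_
  have h2 := h1 a ha
  rw [le_div_iff₀ hpos] at h2
  have h3 := (hτ n).pos (y.fst a)
  nlinarith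

lemma carrier_mul_right (hτ : ∀ n, IsTr (τ n)) {x y : 𝓜(ℂ, A)} (hx : x ∈ carrier τ U) :
    x * y ∈ carrier τ U := by
  intro ε hε
  set C : ℝ := ‖y‖ + 1 with hC
  have hCpos : 0 < C := by positivity
  filter_upwards [hx (ε / C ^ 2) (by positivity)] with n h1 a ha
  rw [DoubleCentralizer.mul_fst, mul_apply_eq_comp]
  have h2 : ‖(((C⁻¹ : ℝ) : ℂ)) • y.fst a‖ ≤ 1 := by
    rw [norm_smul, Complex.norm_real, Real.norm_of_nonneg (by positivity)]
    have : ‖y.fst a‖ ≤ ‖y‖ * 1 := by
      refine (y.fst.le_opNorm a).trans ?_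
      rw [DoubleCentralizer.norm_fst]
      gcongr
    rw [inv_mul_le_iff₀ hCpos]
    linarith
  have h3 := h1 _ h2
  rw [map_smul, star_smul, smul_mul_smul_comm, map_smul, smul_eq_mul] at h3
  have h4 : (star (((C⁻¹ : ℝ) : ℂ)) * ((C⁻¹ : ℝ) : ℂ)) = (((C⁻¹) ^ 2 : ℝ) : ℂ) := by
    rw [Complex.star_def, Complex.conj_ofReal]; push_cast; ring
  rw [h4, Complex.re_ofReal_mul] at h3
  rw [inv_pow, inv_mul_le_iff₀ (by positivity)] at h3
  refine h3.trans (le_of_eq ?_)
  field_simp

lemma carrier_coe (hτ : ∀ n, IsTr (τ n)) (hz : ∀ a, Tendsto (fun n => τ n a) atTop (𝓝 0))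
    (hU : (U : Filter ℕ) ≤ atTop) (b : A) : (b : 𝓜(ℂ, A)) ∈ carrier τ U := by
  intro ε hε
  have h1 : Tendsto (fun n => (τ n (star b * b)).re) atTop (𝓝 0) := by
    have := (Complex.continuous_re.tendsto 0).comp (hz (star b * b))
    rw [Complex.zero_re] at this
    exact this
  filter_upwards [hU (h1.eventually (gt_mem_nhds hε))] with n hn a ha
  rw [DoubleCentralizer.coe_fst, ContinuousLinearMap.mul_apply']
  exact ((hτ n).comp_le b a ha).trans hn.le

/-- The ideal -/
noncomputable def theIdeal (hτ : ∀ n, IsTr (τ n)) (U : Ultrafilter ℕ) :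
    TwoSidedIdeal 𝓜(ℂ, A) :=
  TwoSidedIdeal.mk' (carrier τ U) carrier_zero (carrier_add hτ) carrier_neg
    (carrier_mul_left hτ) (carrier_mul_right hτ)

lemma mem_theIdeal (hτ : ∀ n, IsTr (τ n)) (U : Ultrafilter ℕ) (x : 𝓜(ℂ, A)) :
    x ∈ theIdeal hτ U ↔ x ∈ carrier τ U := by
  rw [theIdeal, TwoSidedIdeal.mem_mk']

lemma isClosed_theIdeal (hτ : ∀ n, IsTr (τ n)) (U : Ultrafilter ℕ) :
    IsClosed (theIdeal hτ U : Set 𝓜(ℂ, A)) := by
  have : (theIdeal hτ U : Set 𝓜(ℂ, A)) = carrier τ U := by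
    ext x; exact mem_theIdeal hτ U x
  rw [this]
  refine isClosed_of_closure_subset fun x hx => ?_
  intro ε hε
  rw [Metric.mem_closure_iff] at hx
  obtain ⟨y, hy, hxy⟩ := hx (Real.sqrt (ε / 4)) (Real.sqrt_pos.mpr (by positivity))
  filter_upwards [hy (ε / 4) (by positivity)] with n h1 a ha
  have h2 : x.fst a = y.fst a + (x - y).fst a := by
    rw [DoubleCentralizer.sub_fst]; simp
  rw [h2]
  refine ((hτ n).add_le _ _).trans ?_
  have h3 : (τ n (star ((x - y).fst a) * (x - y).fst a)).re ≤ ε / 4 := by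
    refine ((hτ n).re_le_norm _).trans ?_
    rw [CStarRing.norm_star_mul_self]
    have h4 : ‖(x - y).fst a‖ ≤ Real.sqrt (ε / 4) := by
      refine ((x - y).fst.le_opNorm a).trans ?_
      rw [DoubleCentralizer.norm_fst]
      rw [dist_eq_norm] at hxy
      nlinarith [norm_nonneg (x - y), norm_nonneg a]
    have h5 : Real.sqrt (ε / 4) * Real.sqrt (ε / 4) = ε / 4 :=
      Real.mul_self_sqrt (by positivity)
    nlinarith [norm_nonneg ((x - y).fst a), Real.sqrt_nonneg (ε / 4)]
  linarith [h1 a ha]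

lemma one_notMem (hτ : ∀ n, IsTr (τ n)) (U : Ultrafilter ℕ) {δ : ℝ} (hδ : 0 < δ)
    (hs : ∀ n, ∃ a : A, ‖a‖ ≤ 1 ∧ δ ≤ (τ n (star a * a)).re) :
    (1 : 𝓜(ℂ, A)) ∉ theIdeal hτ U := by
  rw [mem_theIdeal]
  intro h
  obtain ⟨n, hn⟩ := (h (δ / 2) (by positivity)).exists
  obtain ⟨a, ha, ha'⟩ := hs n
  have := hn a ha
  rw [DoubleCentralizer.one_fst] at this
  simp only [one_apply_eq_self] at this
  linarith

end ideal


section good

lemma IsPos.add {x y : A} (hx : IsPos x) (hy : IsPos y) : IsPos (x + y) := by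
  let _ := CStarAlgebra.spectralOrder A
  have _ := CStarAlgebra.spectralOrderedRing A
  rw [isPos_iff] at *
  exact add_nonneg hx hy

lemma isPos_zero : IsPos (0 : A) := ⟨0, by simp⟩

lemma IsPos.star_eq {x : A} (hx : IsPos x) : star x = x := by
  obtain ⟨y, rfl⟩ := hx
  simp

/-- `x - x²` is positive for a positive contraction `x`. -/
lemma IsPos.sub_sq {x : A} (hx : IsPos x) (h1 : ‖x‖ ≤ 1) : IsPos (x - x * x) := by
  obtain ⟨y, rfl⟩ := hx
  let _ := CStarAlgebra.spectralOrder A
  have _ := CStarAlgebra.spectralOrderedRing A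
  rw [isPos_iff]
  have h2 : star y * (y * star y) * y ≤ ‖y * star y‖ • (star y * y) :=
    CStarAlgebra.star_left_conjugate_le_norm_smul
  have h3 : ‖y * star y‖ ≤ 1 := by
    rw [CStarRing.norm_self_mul_star]
    rwa [CStarRing.norm_star_mul_self] at h1
  have h4 : ‖y * star y‖ • (star y * y) ≤ star y * y := by
    have h5 : (0 : A) ≤ (1 - ‖y * star y‖) • (star y * y) :=
      smul_nonneg (by linarith) (star_mul_self_nonneg y)
    rw [sub_smul, one_smul] at h5
    exact sub_nonneg.mp h5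
  have h6 : star y * y * (star y * y) = star y * (y * star y) * y := by noncomm_ring
  rw [h6]
  exact sub_nonneg.mpr (h2.trans h4)

variable {e : ℕ → A}

lemma IsGood.mul_eq' (he : IsGood e) (n : ℕ) : e n * e (n + 1) = e n := by
  have := congrArg star (he.mul_eq n)
  rwa [star_mul, (he.pos n).star_eq, (he.pos (n + 1)).star_eq] at this

lemma IsGood.sub_pos (he : IsGood e) (n : ℕ) : IsPos (e (n + 1) - e n) := by
  have h1 := (he.pos (n + 1)).sub_sq (he.norm_le _)
  have h2 := (he.pos n).sub_sq (he.norm_le _)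
  have h3 : IsPos ((e (n + 1) - e n) * (e (n + 1) - e n)) :=
    ⟨e (n + 1) - e n, by rw [star_sub, (he.pos n).star_eq, (he.pos (n + 1)).star_eq]⟩
  have h4 : e (n + 1) - e n = (e (n + 1) - e (n + 1) * e (n + 1)) + (e n - e n * e n) +
      (e (n + 1) - e n) * (e (n + 1) - e n) := by
    simp only [mul_sub, sub_mul, he.mul_eq n, he.mul_eq' n]
    abel
  rw [h4]
  exact (h1.add h2).add h3

lemma IsGood.ext_sub_pos (he : IsGood e) (k : ℤ) : IsPos (ext0 e (k + 1) - ext0 e k) := by
  unfold ext0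
  by_cases hk : 0 ≤ k
  · rw [if_pos (by omega), if_pos hk]
    have : (k + 1).toNat = k.toNat + 1 := by omega
    rw [this]
    exact he.sub_pos _
  · by_cases hk' : 0 ≤ k + 1
    · rw [if_pos hk', if_neg hk, sub_zero]
      exact he.pos _
    · rw [if_neg hk', if_neg hk, sub_zero]
      exact isPos_zero

lemma IsGood.ext_sub_pos' (he : IsGood e) (k : ℤ) (m : ℕ) : IsPos (ext0 e (k + m) - ext0 e k) := by
  induction m with
  | zero => simpa using isPos_zero
  | succ m ih =>
    have h := he.ext_sub_pos (k + m)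
    have : ext0 e (k + (m + 1 : ℕ)) - ext0 e k =
        (ext0 e (k + m + 1) - ext0 e (k + m)) + (ext0 e (k + m) - ext0 e k) := by
      push_cast
      rw [add_assoc]
      abel
    rw [this]
    exact h.add ih

lemma IsGood.ext_norm_le (he : IsGood e) (k : ℤ) : ‖ext0 e k‖ ≤ 1 := by
  unfold ext0
  split_ifs
  · exact he.norm_le _
  · simp

/-- the `n`-th block. -/
def blk (e : ℕ → A) (c : ℕ → ℕ) (n : ℕ) : A := gI e (c n) (c (n + 1) - 1)

/-- partial sums -/
def part (e : ℕ → A) (c : ℕ → ℕ) (n : ℕ) : A := ext0 e ((c n : ℤ) - 1)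

variable {c : ℕ → ℕ}

lemma blk_eq (hc : StrictMono c) (n : ℕ) : blk e c n = part e c (n + 1) - part e c n := by
  unfold blk gI part
  have h1 : c n < c (n + 1) := hc (Nat.lt_succ_self n)
  have h2 : ((c (n + 1) - 1 : ℕ) : ℤ) = (c (n + 1) : ℤ) - 1 := by omega
  rw [h2]

lemma blk_pos (he : IsGood e) (hc : StrictMono c) (n : ℕ) : IsPos (blk e c n) := by
  rw [blk_eq hc]
  unfold part
  have h1 : c n < c (n + 1) := hc (Nat.lt_succ_self n)
  have h2 : (c (n + 1) : ℤ) - 1 = ((c n : ℤ) - 1) + ((c (n + 1) - c n : ℕ) : ℤ) := by omega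
  rw [h2]
  exact he.ext_sub_pos' _ _

lemma sum_blk (hc : StrictMono c) (h0 : c 0 = 0) (N : ℕ) :
    ∑ n ∈ Finset.range N, blk e c n = part e c N := by
  have : ∀ n, blk e c n = part e c (n + 1) - part e c n := blk_eq hc
  simp only [this]
  rw [Finset.sum_range_sub]
  have : part e c 0 = 0 := by
    unfold part ext0
    rw [h0]
    simp
  rw [this, sub_zero]

lemma isPos_sum {ι : Type*} (F : Finset ι) (g : ι → A) (hg : ∀ i ∈ F, IsPos (g i)) :
    IsPos (∑ i ∈ F, g i) := by
  classical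
  induction F using Finset.induction_on with
  | empty => simpa using isPos_zero
  | insert i F hi ih =>
    rw [Finset.sum_insert hi]
    exact (hg i (Finset.mem_insert_self _ _)).add
      (ih fun j hj => hg j (Finset.mem_insert_of_mem hj))

lemma norm_sum_blk_le (he : IsGood e) (hc : StrictMono c) (h0 : c 0 = 0) (F : Finset ℕ) :
    ‖∑ n ∈ F, blk e c n‖ ≤ 1 := by
  let _ := CStarAlgebra.spectralOrder A
  have _ := CStarAlgebra.spectralOrderedRing A
  obtain ⟨N, hN⟩ : ∃ N, F ⊆ Finset.range N := F.exists_nat_subset_range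
  have h1 : (0 : A) ≤ ∑ n ∈ F, blk e c n := by
    have := isPos_sum F (blk e c) fun n _ => blk_pos he hc n
    rwa [isPos_iff] at this
  have h2 : ∑ n ∈ F, blk e c n ≤ ∑ n ∈ Finset.range N, blk e c n := by
    have := isPos_sum (Finset.range N \ F) (blk e c) fun n _ => blk_pos he hc n
    rw [isPos_iff] at this
    rw [← Finset.sum_sdiff hN]
    exact le_add_of_nonneg_left this
  refine (CStarAlgebra.norm_le_norm_of_nonneg_of_le h1 h2).trans ?_
  rw [sum_blk hc h0]
  exact he.ext_norm_le _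

/-- `e j * e m = e m` for `m < j`. -/
lemma IsGood.mul_lt (he : IsGood e) {m j : ℕ} (h : m < j) : e j * e m = e m := by
  induction j with
  | zero => omega
  | succ j ih =>
    rcases Nat.lt_or_ge m j with h1 | h1
    · have h2 := ih h1
      calc e (j + 1) * e m = e (j + 1) * (e j * e m) := by rw [h2]
        _ = (e (j + 1) * e j) * e m := by rw [mul_assoc]
        _ = e m := by rw [he.mul_eq, h2]
    · have : m = j := by omega
      rw [this, he.mul_eq]

lemma IsGood.lt_mul (he : IsGood e) {m j : ℕ} (h : m < j) : e m * e j = e m := by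
  have := congrArg star (he.mul_lt h)
  rwa [star_mul, (he.pos m).star_eq, (he.pos j).star_eq] at this

lemma part_mul (he : IsGood e) {m n : ℕ} (h : m + 1 < c n) : part e c n * e m = e m := by
  unfold part ext0
  rw [if_pos (by omega)]
  exact he.mul_lt (by omega)

lemma mul_part (he : IsGood e) {m n : ℕ} (h : m + 1 < c n) : e m * part e c n = e m := by
  unfold part ext0
  rw [if_pos (by omega)]
  exact he.lt_mul (by omega)

lemma blk_mul_zero (he : IsGood e) (hc : StrictMono c) {m n : ℕ} (h : m + 1 < n) :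
    blk e c n * e m = 0 := by
  have h1 : n ≤ c n := hc.id_le n
  have h2 : c n < c (n + 1) := hc (Nat.lt_succ_self n)
  rw [blk_eq hc, sub_mul, part_mul he (by omega), part_mul he (by omega), sub_self]

lemma mul_blk_zero (he : IsGood e) (hc : StrictMono c) {m n : ℕ} (h : m + 1 < n) :
    e m * blk e c n = 0 := by
  have h1 : n ≤ c n := hc.id_le n
  have h2 : c n < c (n + 1) := hc (Nat.lt_succ_self n)
  rw [blk_eq hc, mul_sub, mul_part he (by omega), mul_part he (by omega), sub_self]

/-- Convergence of `∑_{n ∈ L} blk n * a`. -/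
lemma summable_blk_mul (he : IsGood e) (hc : StrictMono c) (h0 : c 0 = 0) (L : Set ℕ) (a : A) :
    Summable (fun n : L => blk e c n * a) := by
  rw [summable_iff_vanishing_norm]
  intro ε hε
  -- approximate `a` by `e m * a`
  have h1 : Tendsto (fun n => ‖e n * a - a‖) atTop (𝓝 0) := by
    have := (he.tendsto_left a).sub_const a
    rw [sub_self] at this
    simpa using this.norm
  obtain ⟨m, hm⟩ := (h1.eventually (gt_mem_nhds hε)).exists
  -- the exceptional finite set
  have hfin : ((↑) ⁻¹' (Set.Iic (m + 1)) : Set L).Finite :=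
    Set.Finite.preimage Subtype.val_injective.injOn (Set.finite_Iic _)
  refine ⟨hfin.toFinset, fun t ht => ?_⟩
  have h2 : ∑ n ∈ t, blk e c n * a = (∑ n ∈ t, blk e c n) * (a - e m * a) := by
    rw [mul_sub, ← mul_assoc, Finset.sum_mul, Finset.sum_mul]
    have h3 : ∑ n ∈ t, blk e c n * e m = 0 := by
      refine Finset.sum_eq_zero fun n hn => blk_mul_zero he hc ?_
      by_contra hcon
      have : n ∈ hfin.toFinset := by
        rw [Set.Finite.mem_toFinset]
        simp only [Set.mem_preimage, Set.mem_Iic]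
        omega
      exact (Finset.disjoint_left.mp ht hn) this
    rw [h3]
    simp
  rw [h2]
  have h4 : ‖∑ n ∈ t, blk e c n‖ ≤ 1 := by
    have := norm_sum_blk_le he hc h0 (t.map (Function.Embedding.subtype _))
    rwa [Finset.sum_map] at this
  calc ‖(∑ n ∈ t, blk e c n) * (a - e m * a)‖ ≤ ‖∑ n ∈ t, blk e c n‖ * ‖a - e m * a‖ :=
        norm_mul_le _ _
    _ ≤ 1 * ‖a - e m * a‖ := by gcongr
    _ < ε := by rw [one_mul, norm_sub_rev]; exact hm

lemma summable_mul_blk (he : IsGood e) (hc : StrictMono c) (h0 : c 0 = 0) (L : Set ℕ) (a : A) :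
    Summable (fun n : L => a * blk e c n) := by
  have h := (summable_blk_mul he hc h0 L (star a)).star
  refine h.congr fun n => ?_
  rw [star_mul, star_star, (blk_pos he hc n).star_eq]

/-- The strict sum as an element of the multiplier algebra. -/
lemma exists_strictSum (he : IsGood e) (hc : StrictMono c) (h0 : c 0 = 0) (L : Set ℕ) :
    ∃ x : 𝓜(ℂ, A), IsStrictSum (blk e c) L x := by
  classical
  let F : A →ₗ[ℂ] A :=
    { toFun := fun a => ∑' n : L, blk e c n * a
      map_add' := fun a b => by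
        simp only [mul_add]
        exact (summable_blk_mul he hc h0 L a).tsum_add (summable_blk_mul he hc h0 L b)
      map_smul' := fun r a => by
        simp only [mul_smul_comm, RingHom.id_apply]
        exact (summable_blk_mul he hc h0 L a).tsum_const_smul r }
  let G : A →ₗ[ℂ] A :=
    { toFun := fun a => ∑' n : L, a * blk e c n
      map_add' := fun a b => by
        simp only [add_mul]
        exact (summable_mul_blk he hc h0 L a).tsum_add (summable_mul_blk he hc h0 L b)
      map_smul' := fun r a => by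
        simp only [smul_mul_assoc, RingHom.id_apply]
        exact (summable_mul_blk he hc h0 L a).tsum_const_smul r }
  have hF : ∀ a, ‖F a‖ ≤ 1 * ‖a‖ := by
    intro a
    refine le_of_tendsto (summable_blk_mul he hc h0 L a).hasSum.norm
      (Eventually.of_forall fun t => ?_)
    rw [← Finset.sum_mul]
    refine (norm_mul_le _ _).trans ?_
    gcongr
    have := norm_sum_blk_le he hc h0 (t.map (Function.Embedding.subtype _))
    rwa [Finset.sum_map] at this
  have hG : ∀ a, ‖G a‖ ≤ 1 * ‖a‖ := by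
    intro a
    refine le_of_tendsto (summable_mul_blk he hc h0 L a).hasSum.norm
      (Eventually.of_forall fun t => ?_)
    rw [← Finset.mul_sum]
    refine (norm_mul_le _ _).trans ?_
    rw [mul_comm]
    gcongr
    have := norm_sum_blk_le he hc h0 (t.map (Function.Embedding.subtype _))
    rwa [Finset.sum_map] at this
  refine ⟨⟨(F.mkContinuous 1 hF, G.mkContinuous 1 hG), ?_⟩, ?_⟩
  · intro x y
    change (∑' n : L, x * blk e c n) * y = x * ∑' n : L, blk e c n * y
    rw [← (summable_mul_blk he hc h0 L x).tsum_mul_right,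
      ← (summable_blk_mul he hc h0 L y).tsum_mul_left]
    simp only [mul_assoc]
  · intro a
    exact ⟨(summable_blk_mul he hc h0 L a).hasSum, (summable_mul_blk he hc h0 L a).hasSum⟩

end good

section main

/-- **General criterion.** If a C*-algebra has bounded positive tracial functionals `τ n`, of norm
at most one and bounded away from zero, with `τ n a → 0` for each `a`, then its multiplier algebra
has a proper closed nonmeagre ideal containing the algebra. -/
theorem exists_nonmeagre (τ : ℕ → A →L[ℂ] ℂ) (hτ : ∀ n, IsTr (τ n))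
    (hz : ∀ a, Tendsto (fun n => τ n a) atTop (𝓝 0)) {δ : ℝ} (hδ : 0 < δ)
    (hs : ∀ n, ∃ a : A, ‖a‖ ≤ 1 ∧ δ ≤ (τ n (star a * a)).re) :
    ∃ I : TwoSidedIdeal 𝓜(ℂ, A), IsClosed (I : Set 𝓜(ℂ, A)) ∧ (∀ a : A, (a : 𝓜(ℂ, A)) ∈ I) ∧
      (1 : 𝓜(ℂ, A)) ∉ I ∧ IsNonmeagre I := by
  set U : Ultrafilter ℕ := Filter.hyperfilter ℕ with hUdef
  have hU : (U : Filter ℕ) ≤ atTop := by
    rw [← Nat.cofinite_eq_atTop]; exact Filter.hyperfilter_le_cofinite
  refine ⟨theIdeal hτ U, isClosed_theIdeal hτ U, fun a => ?_, one_notMem hτ U hδ hs, ?_⟩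
  · rw [mem_theIdeal]; exact carrier_coe hτ hz hU a
  intro e he c hc h0
  -- the array
  have key := exists_small_set (fun n k => ((τ n) (blk e c k)).re)
    (fun n k => (hτ n).nonneg (blk_pos he hc k))
    (fun n F => by
      have : ∑ k ∈ F, ((τ n) (blk e c k)).re = (τ n (∑ k ∈ F, blk e c k)).re := by
        rw [map_sum, Complex.re_sum]
      rw [this]
      exact ((hτ n).re_le_norm _).trans (norm_sum_blk_le he hc h0 F))
    (fun k => by
      have := (Complex.continuous_re.tendsto 0).comp (hz (blk e c k))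
      rw [Complex.zero_re] at this
      exact this) U hU
  obtain ⟨L, hL, hsmall⟩ := key
  obtain ⟨x, hx⟩ := exists_strictSum he hc h0 L
  refine ⟨L, hL, x, ?_, hx⟩
  rw [mem_theIdeal]
  intro ε hε
  filter_upwards [hsmall ε hε] with n hn a ha
  -- pass to the limit over finite subsets
  have hlim : Tendsto (fun t : Finset L =>
      ((τ n) (star (∑ k ∈ t, blk e c k * a) * (∑ k ∈ t, blk e c k * a))).re) atTop
      (𝓝 ((τ n) (star (x.fst a) * x.fst a)).re) := by
    have h1 : Tendsto (fun t : Finset L => ∑ k ∈ t, blk e c k * a) atTop (𝓝 (x.fst a)) := (hx a).1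
    exact (Complex.continuous_re.tendsto _).comp
      (((τ n).continuous.tendsto _).comp ((h1.star).mul h1))
  refine le_of_tendsto hlim (Eventually.of_forall fun t => ?_)
  rw [← Finset.sum_mul]
  set S : A := ∑ k ∈ t, blk e c k with hS
  have hSpos : IsPos S := isPos_sum t _ fun k _ => blk_pos he hc k
  have hSn : ‖S‖ ≤ 1 := by
    have := norm_sum_blk_le he hc h0 (t.map (Function.Embedding.subtype _))
    rwa [Finset.sum_map] at this
  have h2 : (τ n (star (S * a) * (S * a))).re ≤ (τ n (star S * S)).re := (hτ n).comp_le S a ha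
  have h3 : (τ n (star S * S)).re ≤ (τ n S).re := by
    rw [hSpos.star_eq]
    have := (hτ n).nonneg (hSpos.sub_sq hSn)
    rw [map_sub, Complex.sub_re] at this
    linarith
  have h4 : (τ n S).re ≤ ε := by
    have h5 := hn (t.map (Function.Embedding.subtype _)) (by
      intro k hk
      simp only [Finset.coe_map, Function.Embedding.subtype_apply, Set.mem_image] at hk
      obtain ⟨k', _, rfl⟩ := hk
      exact k'.2)
    rw [Finset.sum_map] at h5
    rw [hS, map_sum, Complex.re_sum]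
    exact h5
  linarith

end main

end Pool.Agent.Work.MP_86e2e0_an
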