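import Mathlib

namespace Pool.Agent.Work.MP_86e2e0_an

/-- branching numbers -/
def kk (j : ℕ) : ℕ := (j + 1) * 2 ^ (j + 1)

/-- block sizes -/
def dd : ℕ → ℕ
  | 0 => 1
  | (j + 1) => dd j * kk j

lemma one_lt_kk (j : ℕ) : 1 < kk j := by
  unfold kk
  have : 2 ^ 1 ≤ 2 ^ (j + 1) := Nat.pow_le_pow_right (by norm_num) (by omega)
  nlinarith

lemma lt_kk (j : ℕ) : j + 1 < kk j := by
  unfold kk
  have : 2 ^ 1 ≤ 2 ^ (j + 1) := Nat.pow_le_pow_right (by norm_num) (by omega)
  nlinarith

lemma dd_pos (j : ℕ) : 0 < dd j := by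
  induction j with
  | zero => simp [dd]
  | succ j ih => exact Nat.mul_pos ih (by have := one_lt_kk j; omega)

lemma lt_dd (j : ℕ) : j < dd j := by
  induction j with
  | zero => simp [dd]
  | succ j ih =>
    have := one_lt_kk j
    change j + 1 < dd j * kk j
    nlinarith

/-- child label -/
def ss (j w t : ℕ) : ℕ := if w ≤ j + 1 ∧ t ≤ j then t else w

/-- label of the `q`-th block of level `j`; the block is alive when the label is at most `j`. -/
def lam (j q : ℕ) : ℕ :=
  if h : q = 0 then 0 else ss j (lam (j + 1) (q / kk j)) (q % kk j)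
termination_by q
decreasing_by exact Nat.div_lt_self (Nat.pos_of_ne_zero h) (one_lt_kk j)

lemma lam_zero (j : ℕ) : lam j 0 = 0 := by
  rw [lam]; simp

lemma lam_eq (j q : ℕ) : lam j q = ss j (lam (j + 1) (q / kk j)) (q % kk j) := by
  by_cases h : q = 0
  · subst h
    rw [Nat.zero_div, Nat.zero_mod, lam_zero, lam_zero]
    simp [ss]
  · rw [lam, dif_neg h]

lemma lam_child (j Q t : ℕ) (ht : t < kk j) : lam j (t + kk j * Q) = ss j (lam (j + 1) Q) t := by
  have hk : 0 < kk j := by have := one_lt_kk j; omega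
  rw [lam_eq, Nat.add_mul_mod_self_left, Nat.mod_eq_of_lt ht, Nat.add_mul_div_left _ _ hk,
    Nat.div_eq_of_lt ht, zero_add]

lemma lam_self {j v : ℕ} (h : v ≤ j) : lam j v = v := by
  have h1 : v < kk j := by have := lt_kk j; omega
  have := lam_child j 0 v h1
  rw [Nat.mul_zero, add_zero, lam_zero] at this
  rw [this]
  simp [ss, h]

/-- dead blocks have dead children -/
lemma lam_dead {j Q t : ℕ} (ht : t < kk j) (h : j + 1 < lam (j + 1) Q) :
    j < lam j (t + kk j * Q) := by
  rw [lam_child j Q t ht, ss, if_neg (by omega)]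
  omega

end Pool.Agent.Work.MP_86e2e0_an
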