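import Mathlib

open Filter Topology
open scoped ENNReal InnerProductSpace

namespace Pool.Agent.Work.MP_86e2e0_an

/-- The Hilbert space `ℓ²(ℕ)`. -/
abbrev H : Type := lp (fun _ : ℕ => ℂ) 2

/-- basis vectors -/
noncomputable def dl (y : ℕ) : H := lp.single 2 y (1 : ℂ)

lemma dl_apply (y z : ℕ) : (dl y : ℕ → ℂ) z = if z = y then 1 else 0 := by
  unfold dl
  rw [lp.single_apply]
  by_cases h : z = y
  · subst h; simp
  · simp [h]

lemma norm_dl (y : ℕ) : ‖dl y‖ = 1 := by
  unfold dl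
  rw [lp.norm_single (by norm_num)]; simp

/-- matrix entries -/
noncomputable def ent (T : H →L[ℂ] H) (y y' : ℕ) : ℂ := (T (dl y') : ℕ → ℂ) y

lemma ent_eq_inner (T : H →L[ℂ] H) (y y' : ℕ) : ent T y y' = ⟪dl y, T (dl y')⟫_ℂ := by
  unfold ent dl
  rw [lp.inner_single_left]
  simp

lemma ent_norm_le (T : H →L[ℂ] H) (y y' : ℕ) : ‖ent T y y'‖ ≤ ‖T‖ := by
  rw [ent_eq_inner]
  refine (norm_inner_le_norm _ _).trans ?_
  rw [norm_dl, one_mul]
  refine (T.le_opNorm _).trans ?_
  rw [norm_dl, mul_one]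

@[simp] lemma ent_add (S T : H →L[ℂ] H) (y y' : ℕ) : ent (S + T) y y' = ent S y y' + ent T y y' := rfl
@[simp] lemma ent_sub (S T : H →L[ℂ] H) (y y' : ℕ) : ent (S - T) y y' = ent S y y' - ent T y y' := rfl
@[simp] lemma ent_zero (y y' : ℕ) : ent 0 y y' = 0 := rfl
@[simp] lemma ent_smul (c : ℂ) (T : H →L[ℂ] H) (y y' : ℕ) : ent (c • T) y y' = c * ent T y y' := rfl
@[simp] lemma ent_neg (T : H →L[ℂ] H) (y y' : ℕ) : ent (-T) y y' = -ent T y y' := rfl

lemma ent_star (T : H →L[ℂ] H) (y y' : ℕ) : ent (star T) y y' = star (ent T y' y) := by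
  rw [ent_eq_inner, ent_eq_inner, ContinuousLinearMap.star_eq_adjoint,
    ContinuousLinearMap.adjoint_inner_right, ← inner_conj_symm]
  rfl

/-- entry functional -/
noncomputable def entL (y y' : ℕ) : (H →L[ℂ] H) →L[ℂ] ℂ :=
  LinearMap.mkContinuous
    { toFun := fun T => ent T y y'
      map_add' := fun _ _ => rfl
      map_smul' := fun _ _ => rfl } 1 (fun T => by rw [one_mul]; exact ent_norm_le T y y')

@[simp] lemma entL_apply (y y' : ℕ) (T : H →L[ℂ] H) : entL y y' T = ent T y y' := rfl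

lemma ent_sum {ι : Type*} (F : Finset ι) (T : ι → H →L[ℂ] H) (y y' : ℕ) :
    ent (∑ i ∈ F, T i) y y' = ∑ i ∈ F, ent (T i) y y' := by
  rw [← entL_apply, map_sum]; rfl

/-- operators are determined by their entries. -/
lemma op_ext {S T : H →L[ℂ] H} (h : ∀ y y', ent S y y' = ent T y y') : S = T := by
  have h1 : ∀ y', S (dl y') = T (dl y') := by
    intro y'
    refine lp.ext ?_
    funext y
    exact h y y'
  ext1 ξ
  have h2 := lp.hasSum_single (E := fun _ : ℕ => ℂ) (p := 2) (by norm_num) ξ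
  have h3 : ∀ y, lp.single 2 y (ξ y) = (ξ y) • dl y := by
    intro y
    unfold dl
    rw [← lp.single_smul]; simp
  simp only [h3] at h2
  have h4 := h2.mapL S
  have h5 := h2.mapL T
  simp only [map_smul, h1] at h4 h5
  exact h4.unique h5

/-- product formula when the column has finite support. -/
lemma ent_mul {S T : H →L[ℂ] H} {y' : ℕ} {F : Finset ℕ} (h : ∀ z, z ∉ F → ent T z y' = 0) (y : ℕ) :
    ent (S * T) y y' = ∑ z ∈ F, ent S y z * ent T z y' := by
  have h1 : T (dl y') = ∑ z ∈ F, ent T z y' • dl z := by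
    refine lp.ext ?_
    funext w
    rw [lp.coeFn_sum, Finset.sum_apply]
    have h2 : ∀ z ∈ F, ((ent T z y' • dl z : H) : ℕ → ℂ) w = if z = w then ent T w y' else 0 := by
      intro z _
      rw [lp.coeFn_smul, Pi.smul_apply, dl_apply, smul_eq_mul]
      by_cases hzw : z = w
      · subst hzw; simp
      · simp [hzw, Ne.symm hzw]
    rw [Finset.sum_congr rfl h2, Finset.sum_ite_eq']
    split_ifs with hw
    · rfl
    · exact h w hw
  have h3 : (S * T) (dl y') = ∑ z ∈ F, ent T z y' • S (dl z) := by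
    rw [mul_apply_eq_comp, h1, map_sum]
    simp only [map_smul]
  unfold ent at *
  rw [h3, lp.coeFn_sum, Finset.sum_apply]
  refine Finset.sum_congr rfl fun z _ => ?_
  rw [lp.coeFn_smul, Pi.smul_apply, smul_eq_mul, mul_comm]

section shift

variable (R : ℕ → Prop) [DecidablePred R] (σ : ℕ → ℕ) (hσ : Set.InjOn σ {y | R y})

lemma shift_mem (hσ : Set.InjOn σ {y | R y}) (ξ : H) :
    Memℓp (fun y => if R y then ξ (σ y) else (0 : ℂ)) 2 ∧
      ∑' y, ‖(if R y then ξ (σ y) else (0 : ℂ))‖ ^ (2 : ℝ) ≤ ∑' y, ‖ξ y‖ ^ (2 : ℝ) := by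
  have hs : Summable fun y => ‖ξ y‖ ^ (2 : ℝ) := by
    have := (lp.memℓp ξ).summable (by norm_num)
    simpa using this
  have h1 : ∀ y, ‖(if R y then ξ (σ y) else (0 : ℂ))‖ ^ (2 : ℝ) =
      Set.indicator {y | R y} (fun y => ‖ξ (σ y)‖ ^ (2 : ℝ)) y := by
    intro y
    rw [Set.indicator_apply]
    by_cases hy : R y
    · simp [hy]
    · simp [hy]
  have h2 : Summable (fun y : {y | R y} => ‖ξ (σ y)‖ ^ (2 : ℝ)) := by
    have := hs.comp_injective (i := fun y : {y | R y} => σ y) (fun a b hab =>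
      Subtype.ext (hσ a.2 b.2 hab))
    exact this
  have h3 : Summable (Set.indicator {y | R y} (fun y => ‖ξ (σ y)‖ ^ (2 : ℝ))) := by
    rw [← summable_subtype_iff_indicator]
    exact h2
  constructor
  · refine memℓp_gen ?_
    have : (2 : ℝ≥0∞).toReal = (2 : ℝ) := by norm_num
    rw [this]
    simp only [h1]
    exact h3
  · simp only [h1]
    rw [← tsum_subtype]
    exact tsum_comp_le_tsum_of_inj hs (fun _ => by positivity) (i := fun y : {y | R y} => σ y)
      (fun a b hab => Subtype.ext (hσ a.2 b.2 hab))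

/-- partial isometry `ξ ↦ (y ↦ if R y then ξ (σ y) else 0)`. -/
noncomputable def shift : H →L[ℂ] H :=
  LinearMap.mkContinuous
    { toFun := fun ξ => ⟨fun y => if R y then ξ (σ y) else (0 : ℂ), (shift_mem R σ hσ ξ).1⟩
      map_add' := fun ξ η => by
        refine lp.ext ?_
        funext y
        simp only [lp.coeFn_add, Pi.add_apply]
        split_ifs <;> simp
      map_smul' := fun c ξ => by
        refine lp.ext ?_
        funext y
        simp only [lp.coeFn_smul, Pi.smul_apply, RingHom.id_apply, smul_eq_mul]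
        split_ifs <;> simp } 1 (fun ξ => by
      rw [one_mul]
      have h := (shift_mem R σ hσ ξ).2
      have e1 := lp.norm_rpow_eq_tsum (E := fun _ : ℕ => ℂ) (p := 2) (by norm_num) ξ
      have e2 := lp.norm_rpow_eq_tsum (E := fun _ : ℕ => ℂ) (p := 2) (by norm_num)
        (⟨fun y => if R y then ξ (σ y) else (0 : ℂ), (shift_mem R σ hσ ξ).1⟩ : H)
      have e3 : (2 : ℝ≥0∞).toReal = (2 : ℝ) := by norm_num
      rw [e3] at e1 e2
      change _ = ∑' y, ‖(if R y then ξ (σ y) else (0 : ℂ))‖ ^ (2 : ℝ) at e2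
      rw [← e1, ← e2] at h
      exact le_of_not_gt fun hlt => absurd h (not_le.mpr
        (Real.rpow_lt_rpow (norm_nonneg _) hlt (by norm_num))))

lemma shift_norm_le : ‖shift R σ hσ‖ ≤ 1 := LinearMap.mkContinuous_norm_le _ zero_le_one _

lemma ent_shift (y y' : ℕ) : ent (shift R σ hσ) y y' = if R y ∧ σ y = y' then 1 else 0 := by
  change (if R y then (dl y' : ℕ → ℂ) (σ y) else (0 : ℂ)) = _
  rw [dl_apply]
  by_cases h1 : R y <;> by_cases h2 : σ y = y' <;> simp [h1, h2]

end shift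

end Pool.Agent.Work.MP_86e2e0_an
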