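import Mathlib
import Pool.Agent.Work.MP_86e2e0_an.Defs
import Pool.Agent.Work.MP_86e2e0_an.Ops
import Pool.Agent.Work.MP_86e2e0_an.Labels

open Filter Topology

namespace Pool.Agent.Work.MP_86e2e0_an

/-- Operators in the `j`-th finite-dimensional algebra. -/
structure InA (j : ℕ) (T : H →L[ℂ] H) : Prop where
  off : ∀ y y', y / dd j ≠ y' / dd j → ent T y y' = 0
  dead : ∀ q, j < lam j q → ∀ x < dd j, ∀ x' < dd j, ent T (x + dd j * q) (x' + dd j * q) = 0
  same : ∀ q q', lam j q = lam j q' → ∀ x < dd j, ∀ x' < dd j,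
    ent T (x + dd j * q) (x' + dd j * q) = ent T (x + dd j * q') (x' + dd j * q')

lemma block_div {d x q : ℕ} (hx : x < d) : (x + d * q) / d = q := by
  rw [Nat.add_mul_div_left _ _ (by omega), Nat.div_eq_of_lt hx, zero_add]

/-- product formula in blocks -/
lemma InA.ent_mul_block {j : ℕ} {S T : H →L[ℂ] H} (hT : InA j T) (y q x' : ℕ) (hx' : x' < dd j) :
    ent (S * T) y (x' + dd j * q) =
      ∑ z ∈ Finset.range (dd j), ent S y (z + dd j * q) * ent T (z + dd j * q) (x' + dd j * q) := by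
  have h1 : ∀ z, z ∉ (Finset.range (dd j)).image (fun z => z + dd j * q) →
      ent T z (x' + dd j * q) = 0 := by
    intro z hz
    refine hT.off _ _ ?_
    rw [block_div hx']
    intro hzq
    apply hz
    rw [Finset.mem_image]
    refine ⟨z % dd j, Finset.mem_range.mpr (Nat.mod_lt _ (dd_pos j)), ?_⟩
    have := Nat.mod_add_div z (dd j)
    rw [hzq] at this
    exact this
  rw [ent_mul h1, Finset.sum_image]
  intro a _ b _ hab
  simpa using hab

lemma InA.mul {j : ℕ} {S T : H →L[ℂ] H} (hS : InA j S) (hT : InA j T) : InA j (S * T) where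
  off y y' h := by
    have e : y' = y' % dd j + dd j * (y' / dd j) := (Nat.mod_add_div y' (dd j)).symm
    rw [e, hT.ent_mul_block _ _ _ (Nat.mod_lt _ (dd_pos j))]
    refine Finset.sum_eq_zero fun z hz => ?_
    rw [hS.off, zero_mul]
    rw [block_div (Finset.mem_range.mp hz)]
    exact h
  dead q hq x hx x' hx' := by
    rw [hT.ent_mul_block _ _ _ hx']
    refine Finset.sum_eq_zero fun z hz => ?_
    rw [hS.dead q hq x hx z (Finset.mem_range.mp hz), zero_mul]
  same q q' hq x hx x' hx' := by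
    rw [hT.ent_mul_block _ _ _ hx', hT.ent_mul_block _ _ _ hx']
    refine Finset.sum_congr rfl fun z hz => ?_
    rw [hS.same q q' hq x hx z (Finset.mem_range.mp hz),
      hT.same q q' hq z (Finset.mem_range.mp hz) x' hx']

lemma InA.zero {j : ℕ} : InA j 0 where
  off y y' h := by simp
  dead q hq x hx x' hx' := by simp
  same q q' hq x hx x' hx' := by simp

lemma InA.add {j : ℕ} {S T : H →L[ℂ] H} (hS : InA j S) (hT : InA j T) : InA j (S + T) where
  off y y' h := by rw [ent_add, hS.off _ _ h, hT.off _ _ h, add_zero]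
  dead q hq x hx x' hx' := by
    rw [ent_add, hS.dead q hq x hx x' hx', hT.dead q hq x hx x' hx', add_zero]
  same q q' hq x hx x' hx' := by
    rw [ent_add, ent_add, hS.same q q' hq x hx x' hx', hT.same q q' hq x hx x' hx']

lemma InA.smul {j : ℕ} (c : ℂ) {T : H →L[ℂ] H} (hT : InA j T) : InA j (c • T) where
  off y y' h := by rw [ent_smul, hT.off _ _ h, mul_zero]
  dead q hq x hx x' hx' := by rw [ent_smul, hT.dead q hq x hx x' hx', mul_zero]
  same q q' hq x hx x' hx' := by rw [ent_smul, ent_smul, hT.same q q' hq x hx x' hx']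

lemma InA.star {j : ℕ} {T : H →L[ℂ] H} (hT : InA j T) : InA j (star T) where
  off y y' h := by rw [ent_star, hT.off _ _ (Ne.symm h), star_zero]
  dead q hq x hx x' hx' := by rw [ent_star, hT.dead q hq x' hx' x hx, star_zero]
  same q q' hq x hx x' hx' := by rw [ent_star, ent_star, hT.same q q' hq x' hx' x hx]

lemma dd_succ (j : ℕ) : dd (j + 1) = dd j * kk j := rfl

lemma split_lt {j X : ℕ} (hX : X < dd (j + 1)) (Q : ℕ) :
    ∃ x t, x < dd j ∧ t < kk j ∧ X + dd (j + 1) * Q = x + dd j * (t + kk j * Q) ∧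
      X = x + dd j * t := by
  refine ⟨X % dd j, X / dd j, Nat.mod_lt _ (dd_pos j), ?_, ?_, (Nat.mod_add_div X (dd j)).symm⟩
  · exact Nat.div_lt_of_lt_mul hX
  · have := Nat.mod_add_div X (dd j)
    rw [dd_succ]
    calc X + dd j * kk j * Q = (X % dd j + dd j * (X / dd j)) + dd j * kk j * Q := by rw [this]
      _ = _ := by ring

lemma InA.succ {j : ℕ} {T : H →L[ℂ] H} (hT : InA j T) : InA (j + 1) T where
  off y y' h := by
    refine hT.off _ _ fun h' => h ?_
    rw [dd_succ, ← Nat.div_div_eq_div_mul, ← Nat.div_div_eq_div_mul, h']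
  dead Q hQ X hX X' hX' := by
    obtain ⟨x, t, hx, ht, e1, _⟩ := split_lt hX Q
    obtain ⟨x', t', hx', ht', e2, _⟩ := split_lt hX' Q
    rw [e1, e2]
    by_cases htt : t = t'
    · subst htt
      exact hT.dead _ (lam_dead ht hQ) x hx x' hx'
    · refine hT.off _ _ ?_
      rw [block_div hx, block_div hx']
      omega
  same Q Q' hQ X hX X' hX' := by
    obtain ⟨x, t, hx, ht, _, f1⟩ := split_lt hX Q
    obtain ⟨x', t', hx', ht', _, f2⟩ := split_lt hX' Q
    have g : ∀ Q x t, x + dd j * t + dd (j + 1) * Q = x + dd j * (t + kk j * Q) := by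
      intro Q x t; rw [dd_succ]; ring
    subst f1 f2
    rw [g, g, g, g]
    by_cases htt : t = t'
    · subst htt
      refine hT.same _ _ ?_ x hx x' hx'
      rw [lam_child j Q t ht, lam_child j Q' t ht, hQ]
    · rw [hT.off, hT.off]
      · rw [block_div hx, block_div hx']; omega
      · rw [block_div hx, block_div hx']; omega

lemma InA.mono {i j : ℕ} (hij : i ≤ j) {T : H →L[ℂ] H} (hT : InA i T) : InA j T := by
  induction j, hij using Nat.le_induction with
  | base => exact hT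
  | succ j _ ih => exact ih.succ

/-- The `j`-th algebra. -/
def Aj (j : ℕ) : NonUnitalStarSubalgebra ℂ (H →L[ℂ] H) where
  carrier := {T | InA j T}
  mul_mem' := fun hS hT => InA.mul hS hT
  add_mem' := fun hS hT => InA.add hS hT
  zero_mem' := InA.zero
  smul_mem' := fun c _ hT => InA.smul c hT
  star_mem' := fun hT => InA.star hT

lemma mem_Aj {j : ℕ} {T : H →L[ℂ] H} : T ∈ Aj j ↔ InA j T := Iff.rfl

lemma Aj_mono : Monotone Aj := fun _ _ hij _ hT => InA.mono hij hT

/-- The union. -/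
def Ainf : NonUnitalStarSubalgebra ℂ (H →L[ℂ] H) where
  carrier := {T | ∃ j, InA j T}
  mul_mem' := by
    rintro S T ⟨i, hi⟩ ⟨j, hj⟩
    exact ⟨max i j, (hi.mono (le_max_left _ _)).mul (hj.mono (le_max_right _ _))⟩
  add_mem' := by
    rintro S T ⟨i, hi⟩ ⟨j, hj⟩
    exact ⟨max i j, (hi.mono (le_max_left _ _)).add (hj.mono (le_max_right _ _))⟩
  zero_mem' := ⟨0, InA.zero⟩
  smul_mem' := by
    rintro c T ⟨j, hj⟩
    exact ⟨j, hj.smul c⟩
  star_mem' := by
    rintro T ⟨j, hj⟩
    exact ⟨j, hj.star⟩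

/-- The C*-algebra. -/
noncomputable def Alg : NonUnitalStarSubalgebra ℂ (H →L[ℂ] H) := Ainf.topologicalClosure

instance isClosed_Alg : IsClosed (Alg : Set (H →L[ℂ] H)) := Ainf.isClosed_topologicalClosure

noncomputable instance : NonUnitalCStarAlgebra Alg :=
  NonUnitalStarSubalgebra.nonUnitalCStarAlgebra Alg

lemma InA.mem {j : ℕ} {T : H →L[ℂ] H} (hT : InA j T) : T ∈ Alg :=
  Ainf.le_topologicalClosure ⟨j, hT⟩

lemma Alg_approx {T : H →L[ℂ] H} (hT : T ∈ Alg) {ε : ℝ} (hε : 0 < ε) (n : ℕ) :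
    ∃ j, n ≤ j ∧ ∃ S, InA j S ∧ ‖T - S‖ < ε := by
  have h1 : T ∈ closure (Ainf : Set (H →L[ℂ] H)) := hT
  rw [Metric.mem_closure_iff] at h1
  obtain ⟨S, ⟨j, hj⟩, hS⟩ := h1 ε hε
  rw [dist_eq_norm] at hS
  exact ⟨max n j, le_max_left _ _, S, hj.mono (le_max_right _ _), hS⟩

/-! ### matrix units -/

/-- row condition -/
def uR (j v x : ℕ) (y : ℕ) : Prop := y % dd j = x ∧ lam j (y / dd j) = v

instance (j v x : ℕ) : DecidablePred (uR j v x) := fun y => by unfold uR; infer_instance

/-- column map -/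
def uσ (j x' : ℕ) (y : ℕ) : ℕ := x' + dd j * (y / dd j)

lemma uσ_inj (j v x x' : ℕ) : Set.InjOn (uσ j x') {y | uR j v x y} := by
  intro a ha b hb hab
  simp only [Set.mem_ofPred_eq, uR] at ha hb
  unfold uσ at hab
  have h1 : dd j * (a / dd j) = dd j * (b / dd j) := by omega
  have h2 := Nat.mod_add_div a (dd j)
  have h3 := Nat.mod_add_div b (dd j)
  rw [ha.1] at h2
  rw [hb.1] at h3
  omega

/-- matrix unit with label `v` at level `j` -/
noncomputable def E (j v x x' : ℕ) : H →L[ℂ] H := shift (uR j v x) (uσ j x') (uσ_inj j v x x')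

lemma E_norm_le (j v x x' : ℕ) : ‖E j v x x'‖ ≤ 1 := shift_norm_le _ _ _

lemma ent_E (j v x x' : ℕ) (y y' : ℕ) :
    ent (E j v x x') y y' =
      if (y % dd j = x ∧ lam j (y / dd j) = v) ∧ x' + dd j * (y / dd j) = y' then 1 else 0 :=
  ent_shift _ _ _ _ _

lemma ent_E_block {j : ℕ} (v x x' : ℕ) {a b : ℕ} (q q' : ℕ) (ha : a < dd j) :
    ent (E j v x x') (a + dd j * q) (b + dd j * q') =
      if a = x ∧ lam j q = v ∧ x' + dd j * q = b + dd j * q' then 1 else 0 := by
  rw [ent_E, block_div ha, Nat.add_mul_mod_self_left, Nat.mod_eq_of_lt ha]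
  simp only [and_assoc]

lemma InA_E {j v x x' : ℕ} (hv : v ≤ j) (hx' : x' < dd j) : InA j (E j v x x') where
  off y y' h := by
    rw [ent_E, if_neg]
    rintro ⟨_, h2⟩
    apply h
    rw [← h2, block_div hx']
  dead q hq a ha b hb := by
    rw [ent_E_block v x x' q q ha, if_neg]
    rintro ⟨_, h2, _⟩
    omega
  same q q' hq a ha b hb := by
    rw [ent_E_block v x x' q q ha, ent_E_block v x x' q' q' ha, hq]
    simp only [Nat.add_right_cancel_iff]

end Pool.Agent.Work.MP_86e2e0_an
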