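import Mathlib
import Pool.Agent.Work.MP_86e2e0_an.Alg

open Filter Topology

namespace Pool.Agent.Work.MP_86e2e0_an

lemma InA.ext {j : ℕ} {S T : H →L[ℂ] H} (hS : InA j S) (hT : InA j T)
    (h : ∀ q, ∀ x < dd j, ∀ x' < dd j,
      ent S (x + dd j * q) (x' + dd j * q) = ent T (x + dd j * q) (x' + dd j * q)) : S = T := by
  refine op_ext fun y y' => ?_
  by_cases hyy : y / dd j = y' / dd j
  · have e1 := Nat.mod_add_div y (dd j)
    have e2 := Nat.mod_add_div y' (dd j)
    rw [← hyy] at e2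
    have := h (y / dd j) (y % dd j) (Nat.mod_lt _ (dd_pos j)) (y' % dd j) (Nat.mod_lt _ (dd_pos j))
    rwa [e1, e2] at this
  · rw [hS.off _ _ hyy, hT.off _ _ hyy]

lemma ent_E_mul {j v a b : ℕ} (hb : b < dd j) {T : H →L[ℂ] H} (hT : InA j T)
    (q x z : ℕ) (hx : x < dd j) (hz : z < dd j) :
    ent (E j v a b * T) (x + dd j * q) (z + dd j * q) =
      if x = a ∧ lam j q = v then ent T (b + dd j * q) (z + dd j * q) else 0 := by
  rw [hT.ent_mul_block _ _ _ hz]
  have h1 : ∀ w ∈ Finset.range (dd j),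
      ent (E j v a b) (x + dd j * q) (w + dd j * q) * ent T (w + dd j * q) (z + dd j * q) =
      if b = w then (if x = a ∧ lam j q = v then ent T (w + dd j * q) (z + dd j * q) else 0)
        else 0 := by
    intro w hw
    rw [ent_E_block v a b q q hx]
    by_cases h2 : x = a <;> by_cases h3 : lam j q = v <;> by_cases h4 : b = w <;>
      simp [h2, h3, h4]
  rw [Finset.sum_congr rfl h1, Finset.sum_ite_eq, if_pos (Finset.mem_range.mpr hb)]

lemma ent_mul_E {j v c e : ℕ} (hv : v ≤ j) (hc : c < dd j) (he : e < dd j) {T : H →L[ℂ] H}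
    (q x z : ℕ) (hz : z < dd j) :
    ent (T * E j v c e) (x + dd j * q) (z + dd j * q) =
      if z = e ∧ lam j q = v then ent T (x + dd j * q) (c + dd j * q) else 0 := by
  rw [(InA_E hv he).ent_mul_block _ _ _ hz]
  have h1 : ∀ w ∈ Finset.range (dd j),
      ent T (x + dd j * q) (w + dd j * q) * ent (E j v c e) (w + dd j * q) (z + dd j * q) =
      if w = c then (if z = e ∧ lam j q = v then ent T (x + dd j * q) (w + dd j * q) else 0)
        else 0 := by
    intro w hw
    rw [ent_E_block v c e q q (Finset.mem_range.mp hw)]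
    rcases eq_or_ne z e with h4 | h4
    · by_cases h2 : w = c <;> by_cases h3 : lam j q = v <;> simp [h2, h3, h4]
    · by_cases h2 : w = c <;> by_cases h3 : lam j q = v <;> simp [h2, h3, h4, h4.symm]
  rw [Finset.sum_congr rfl h1, Finset.sum_ite_eq', if_pos (Finset.mem_range.mpr hc)]

/-- compression by matrix units -/
lemma E_mul_E {j v a b c e : ℕ} (hv : v ≤ j) (hb : b < dd j) (hc : c < dd j)
    (he : e < dd j) {S : H →L[ℂ] H} (hS : InA j S) :
    E j v a b * S * E j v c e = ent S (b + dd j * v) (c + dd j * v) • E j v a e := by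
  refine InA.ext (((InA_E hv hb).mul hS).mul (InA_E hv he)) ((InA_E hv he).smul _) ?_
  intro q x hx z hz
  rw [ent_mul_E hv hc he q x z hz, ent_E_mul hb hS q x c hx hc, ent_smul,
    ent_E_block v a e q q hx]
  rcases eq_or_ne z e with h4 | h4
  · by_cases h2 : x = a <;> by_cases h3 : lam j q = v
    · subst h2 h4
      have h5 : lam j q = lam j v := by rw [h3, lam_self hv]
      simp [h3, hS.same q v h5 b hb c hc]
    all_goals simp [h2, h3]
  · by_cases h2 : x = a <;> by_cases h3 : lam j q = v <;> simp [h2, h3, h4, h4.symm]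

lemma E_comp {j v a b e : ℕ} (hv : v ≤ j) (hb : b < dd j) (he : e < dd j) :
    E j v a b * E j v b e = E j v a e := by
  refine InA.ext ((InA_E hv hb).mul (InA_E hv he)) (InA_E hv he) ?_
  intro q x hx z hz
  rw [ent_mul_E hv hb he q x z hz, ent_E_block v a b q q hx, ent_E_block v a e q q hx]
  rcases eq_or_ne z e with h4 | h4
  · by_cases h2 : x = a <;> by_cases h3 : lam j q = v <;> simp [h2, h3, h4]
  · by_cases h2 : x = a <;> by_cases h3 : lam j q = v <;> simp [h2, h3, h4, h4.symm]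

lemma E_succ_mul {j w : ℕ} (hw : w ≤ j + 1) :
    E (j + 1) w 0 0 * E j 0 0 0 = E (j + 1) w 0 0 := by
  have h0 : 0 < dd (j + 1) := dd_pos _
  have hT : InA (j + 1) (E j 0 0 0) := (InA_E (Nat.zero_le _) (dd_pos j)).succ
  refine InA.ext ((InA_E hw h0).mul hT) (InA_E hw h0) ?_
  intro q x hx z hz
  rw [ent_E_mul h0 hT q x z hx hz, ent_E_block w 0 0 q q hx]
  by_cases h2 : x = 0 <;> by_cases h3 : lam (j + 1) q = w
  · simp only [h2, h3, and_self, if_true, true_and, zero_add]
    rw [ent_E]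
    have e1 : dd (j + 1) * q / dd j = kk j * q := by
      rw [dd_succ, mul_assoc, Nat.mul_div_cancel_left _ (dd_pos j)]
    have e2 : dd (j + 1) * q % dd j = 0 := by
      rw [dd_succ, mul_assoc, Nat.mul_mod_right]
    have e3 : lam j (kk j * q) = 0 := by
      have hk : 0 < kk j := by have := one_lt_kk j; omega
      have := lam_child j q 0 hk
      rw [zero_add, h3] at this
      rw [this, ss, if_pos ⟨hw, Nat.zero_le _⟩]
    rw [e1, e2, e3]
    simp [dd_succ, mul_assoc]
  all_goals simp [h2, h3]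

lemma InA.decomp {j : ℕ} {T : H →L[ℂ] H} (hT : InA j T) :
    T = ∑ v ∈ Finset.range (j + 1), ∑ x ∈ Finset.range (dd j), ∑ x' ∈ Finset.range (dd j),
      ent T (x + dd j * v) (x' + dd j * v) • E j v x x' := by
  have hmem : InA j (∑ v ∈ Finset.range (j + 1), ∑ x ∈ Finset.range (dd j),
      ∑ x' ∈ Finset.range (dd j), ent T (x + dd j * v) (x' + dd j * v) • E j v x x') := by
    rw [← mem_Aj]
    refine sum_mem fun v hv => sum_mem fun x _ => sum_mem fun x' hx' => ?_
    rw [Finset.mem_range] at hv hx'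
    exact SMulMemClass.smul_mem _ (InA_E (by omega) hx')
  refine InA.ext hT hmem ?_
  intro q a ha b hb
  rw [ent_sum]
  have h1 : ∀ v ∈ Finset.range (j + 1), ent (∑ x ∈ Finset.range (dd j),
      ∑ x' ∈ Finset.range (dd j), ent T (x + dd j * v) (x' + dd j * v) • E j v x x')
      (a + dd j * q) (b + dd j * q) =
      if lam j q = v then ent T (a + dd j * v) (b + dd j * v) else 0 := by
    intro v _
    rw [ent_sum]
    have h2 : ∀ x ∈ Finset.range (dd j), ent (∑ x' ∈ Finset.range (dd j),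
        ent T (x + dd j * v) (x' + dd j * v) • E j v x x') (a + dd j * q) (b + dd j * q) =
        if a = x then (if lam j q = v then ent T (x + dd j * v) (b + dd j * v) else 0) else 0 := by
      intro x _
      rw [ent_sum]
      have h3 : ∀ x' ∈ Finset.range (dd j), ent (ent T (x + dd j * v) (x' + dd j * v) • E j v x x')
          (a + dd j * q) (b + dd j * q) =
          if x' = b then (if a = x ∧ lam j q = v then ent T (x + dd j * v) (x' + dd j * v) else 0)
            else 0 := by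
        intro x' _
        rw [ent_smul, ent_E_block v x x' q q ha]
        by_cases h4 : a = x <;> by_cases h5 : lam j q = v <;> by_cases h6 : x' = b <;>
          simp [h4, h5, h6]
      rw [Finset.sum_congr rfl h3, Finset.sum_ite_eq', if_pos (Finset.mem_range.mpr hb)]
      by_cases h4 : a = x <;> by_cases h5 : lam j q = v <;> simp [h4, h5]
    rw [Finset.sum_congr rfl h2, Finset.sum_ite_eq, if_pos (Finset.mem_range.mpr ha)]
  rw [Finset.sum_congr rfl h1, Finset.sum_ite_eq]
  by_cases h7 : lam j q ≤ j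
  · rw [if_pos (Finset.mem_range.mpr (by omega))]
    exact hT.same _ _ (by rw [lam_self h7]) a ha b hb
  · rw [if_neg (by rw [Finset.mem_range]; omega)]
    exact hT.dead q (by omega) a ha b hb

/-! ### ideals -/

/-- membership of an operator in an ideal of `Alg` -/
def memI (I : TwoSidedIdeal Alg) (T : H →L[ℂ] H) : Prop := ∃ h : T ∈ Alg, (⟨T, h⟩ : Alg) ∈ I

variable {I : TwoSidedIdeal Alg}

lemma memI.mul_left {S T : H →L[ℂ] H} (hS : S ∈ Alg) (hT : memI I T) : memI I (S * T) := by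
  obtain ⟨h, hI⟩ := hT
  exact ⟨mul_mem hS h, I.mul_mem_left ⟨S, hS⟩ ⟨T, h⟩ hI⟩

lemma memI.mul_right {S T : H →L[ℂ] H} (hS : memI I S) (hT : T ∈ Alg) : memI I (S * T) := by
  obtain ⟨h, hI⟩ := hS
  exact ⟨mul_mem h hT, I.mul_mem_right ⟨S, h⟩ ⟨T, hT⟩ hI⟩

lemma memI.add {S T : H →L[ℂ] H} (hS : memI I S) (hT : memI I T) : memI I (S + T) := by
  obtain ⟨h, hI⟩ := hS
  obtain ⟨h', hI'⟩ := hT
  exact ⟨add_mem h h', I.add_mem hI hI'⟩

lemma memI.zero : memI I 0 := ⟨zero_mem _, I.zero_mem⟩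

lemma memI.sum {ι : Type*} (F : Finset ι) (T : ι → H →L[ℂ] H) (h : ∀ i ∈ F, memI I (T i)) :
    memI I (∑ i ∈ F, T i) := by
  classical
  induction F using Finset.induction_on with
  | empty => simpa using memI.zero
  | insert i F hi ih =>
    rw [Finset.sum_insert hi]
    exact (h i (Finset.mem_insert_self _ _)).add
      (ih fun j hj => h j (Finset.mem_insert_of_mem hj))

lemma memI.closed (hI : IsClosed (I : Set Alg)) {T : H →L[ℂ] H} (hT : T ∈ Alg)
    (h : ∀ ε > 0, ∃ S, memI I S ∧ ‖T - S‖ < ε) : memI I T := by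
  refine ⟨hT, ?_⟩
  have : (⟨T, hT⟩ : Alg) ∈ closure (I : Set Alg) := by
    rw [Metric.mem_closure_iff]
    intro ε hε
    obtain ⟨S, ⟨hS, hSI⟩, hST⟩ := h ε hε
    refine ⟨⟨S, hS⟩, hSI, ?_⟩
    rw [dist_eq_norm]
    exact hST
  rwa [hI.closure_eq] at this

lemma memI.neumann (hI : IsClosed (I : Set Alg)) {p z : H →L[ℂ] H} (hp : p ∈ Alg)
    (hz : memI I z) (h1 : p * z = z) (hpp : p * p = p) (hn : ‖p - z‖ < 1) : memI I p := by
  obtain ⟨hzA, _⟩ := id hz
  set r := p - z with hr
  have hrA : r ∈ Alg := sub_mem hp hzA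
  have hpr : p * r = r := by rw [hr, mul_sub, h1, hpp]
  have key : ∀ N : ℕ, memI I (p - r ^ (N + 1)) := by
    intro N
    induction N with
    | zero => rw [zero_add, pow_one, hr, sub_sub_cancel]; exact hz
    | succ N ih =>
      have : p - r ^ (N + 1 + 1) = z + (p - r ^ (N + 1)) * r := by
        rw [sub_mul, hpr, ← pow_succ, hr]; abel
      rw [this]
      exact hz.add (ih.mul_right hrA)
  refine memI.closed hI hp fun ε hε => ?_
  have hlim : Tendsto (fun N : ℕ => ‖r‖ ^ (N + 1)) atTop (𝓝 0) :=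
    (tendsto_pow_atTop_nhds_zero_of_lt_one (norm_nonneg _) hn).comp (tendsto_add_atTop_nat 1)
  obtain ⟨N, hN⟩ := (hlim.eventually (gt_mem_nhds hε)).exists
  refine ⟨_, key N, ?_⟩
  rw [sub_sub_cancel]
  exact (norm_pow_le' r (Nat.succ_pos N)).trans_lt hN

lemma memI_E00 (hI : IsClosed (I : Set Alg)) {T : H →L[ℂ] H} (hT : memI I T) (hT0 : T ≠ 0) :
    ∃ j, memI I (E j 0 0 0) := by
  obtain ⟨hTA, _⟩ := id hT
  have : ∃ y y', ent T y y' ≠ 0 := by
    by_contra hcon
    push Not at hcon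
    exact hT0 (op_ext fun y y' => by rw [hcon, ent_zero])
  obtain ⟨y, y', hc⟩ := this
  set c := ent T y y' with hcdef
  have hcpos : 0 < ‖c‖ := norm_pos_iff.mpr hc
  obtain ⟨j, hj, S, hS, hST⟩ := Alg_approx hTA (ε := ‖c‖ / 4) (by positivity) (max y y')
  have hy : y < dd j := by have := lt_dd j; have := le_max_left y y'; omega
  have hy' : y' < dd j := by have := lt_dd j; have := le_max_right y y'; omega
  have h0 : 0 < dd j := dd_pos j
  refine ⟨j, ?_⟩
  have hX : E j 0 0 y ∈ Alg := (InA_E (Nat.zero_le _) hy).mem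
  have hX' : E j 0 y' 0 ∈ Alg := (InA_E (Nat.zero_le _) h0).mem
  have hp : E j 0 0 0 ∈ Alg := (InA_E (Nat.zero_le _) h0).mem
  set z := c⁻¹ • (E j 0 0 y * T * E j 0 y' 0) with hz
  have hzI : memI I z := by
    have h1 : z = (c⁻¹ • E j 0 0 y) * T * E j 0 y' 0 := by
      rw [hz, smul_mul_assoc, smul_mul_assoc]
    rw [h1]
    exact (hT.mul_left (SMulMemClass.smul_mem _ hX)).mul_right hX'
  refine memI.neumann hI hp hzI ?_ (E_comp (Nat.zero_le _) h0 h0) ?_
  · rw [hz, mul_smul_comm, ← mul_assoc, ← mul_assoc, E_comp (Nat.zero_le _) h0 hy]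
  · have h1 : E j 0 0 y * S * E j 0 y' 0 = ent S y y' • E j 0 0 0 := by
      have := E_mul_E (a := 0) (Nat.zero_le j) hy hy' h0 hS
      simpa using this
    have h2 : E j 0 0 0 - z = c⁻¹ • ((c - ent S y y') • E j 0 0 0
        + E j 0 0 y * (S - T) * E j 0 y' 0) := by
      rw [mul_sub, sub_mul, h1, hz, sub_smul, sub_add_sub_cancel, smul_sub, smul_smul,
        inv_mul_cancel₀ hc, one_smul]
    rw [h2, norm_smul, norm_inv]
    have h3 : ‖c - ent S y y'‖ ≤ ‖T - S‖ := by
      rw [hcdef, ← ent_sub]; exact ent_norm_le _ _ _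
    have h4 : ‖(c - ent S y y') • E j 0 0 0‖ ≤ ‖T - S‖ := by
      rw [norm_smul]
      have := E_norm_le j 0 0 0
      nlinarith [norm_nonneg (c - ent S y y'), norm_nonneg (E j 0 0 0)]
    have h5 : ‖E j 0 0 y * (S - T) * E j 0 y' 0‖ ≤ ‖T - S‖ := by
      calc ‖E j 0 0 y * (S - T) * E j 0 y' 0‖ ≤ ‖E j 0 0 y‖ * ‖S - T‖ * ‖E j 0 y' 0‖ :=
            (norm_mul_le _ _).trans (by gcongr; exact norm_mul_le _ _)
        _ ≤ 1 * ‖S - T‖ * 1 := by
            gcongr
            · exact E_norm_le _ _ _ _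
            · exact E_norm_le _ _ _ _
        _ = ‖T - S‖ := by rw [one_mul, mul_one, norm_sub_rev]
    rw [inv_mul_lt_iff₀ hcpos, mul_one]
    refine (norm_add_le _ _).trans_lt ?_
    linarith

lemma memI_E00_mono {j : ℕ} (h : memI I (E j 0 0 0)) {j' : ℕ} (hj : j ≤ j') :
    memI I (E j' 0 0 0) := by
  induction j', hj using Nat.le_induction with
  | base => exact h
  | succ j' _ ih =>
    rw [← E_succ_mul (j := j') (w := 0) (Nat.zero_le _)]
    exact ih.mul_left (InA_E (Nat.zero_le _) (dd_pos _)).mem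

lemma memI_InA {j : ℕ} (h : memI I (E j 0 0 0)) {T : H →L[ℂ] H} (hT : InA (j + 1) T) :
    memI I T := by
  rw [hT.decomp]
  refine memI.sum _ _ fun w hw => memI.sum _ _ fun x hx => memI.sum _ _ fun x' hx' => ?_
  rw [Finset.mem_range] at hw hx hx'
  have hw' : w ≤ j + 1 := by omega
  have h0 : 0 < dd (j + 1) := dd_pos _
  have h1 : memI I (E (j + 1) w 0 0) := by
    rw [← E_succ_mul hw']
    exact h.mul_left (InA_E hw' h0).mem
  have h2 : E (j + 1) w x x' = E (j + 1) w x 0 * E (j + 1) w 0 0 * E (j + 1) w 0 x' := by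
    rw [E_comp hw' h0 h0, E_comp hw' h0 hx']
  rw [h2, ← smul_mul_assoc, ← smul_mul_assoc]
  exact (h1.mul_left (SMulMemClass.smul_mem _ (InA_E hw' h0).mem)).mul_right (InA_E hw' hx').mem

/-- The algebra is simple. -/
theorem isSimple_Alg : IsSimpleCStar Alg := by
  constructor
  · -- nontrivial
    have h1 : InA 0 (E 0 0 0 0) := InA_E le_rfl (dd_pos 0)
    refine ⟨⟨⟨E 0 0 0 0, h1.mem⟩, 0, ?_⟩⟩
    intro h
    have h2 : E 0 0 0 0 = 0 := congrArg Subtype.val h
    have h3 := ent_E_block (j := 0) 0 0 0 (a := 0) (b := 0) 0 0 (dd_pos 0)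
    rw [h2, lam_zero] at h3
    simp at h3
  · intro I hI
    by_cases hbot : I = ⊥
    · exact Or.inl hbot
    right
    have : ∃ T : Alg, T ∈ I ∧ T ≠ 0 := by
      by_contra hcon
      push Not at hcon
      apply hbot
      rw [eq_bot_iff]
      intro x hx
      rw [hcon x hx]
      exact TwoSidedIdeal.zero_mem _
    obtain ⟨⟨T, hTA⟩, hTI, hT0⟩ := this
    have hT : memI I T := ⟨hTA, hTI⟩
    have hT0' : T ≠ 0 := fun h => hT0 (Subtype.ext h)
    obtain ⟨j, hj⟩ := memI_E00 hI hT hT0'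
    rw [eq_top_iff]
    rintro ⟨S, hS⟩ _
    have : memI I S := by
      refine memI.closed hI hS fun ε hε => ?_
      obtain ⟨i, hi, R, hR, hRS⟩ := Alg_approx hS hε (j + 1)
      refine ⟨R, ?_, hRS⟩
      have h1 : memI I (E (i - 1) 0 0 0) := memI_E00_mono hj (by omega)
      have h2 : i - 1 + 1 = i := by omega
      refine memI_InA h1 ?_
      rw [h2]; exact hR
    exact this.2

end Pool.Agent.Work.MP_86e2e0_an
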