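import Mathlib
import Pool.Agent.Work.MP_86e2e0_an.Simple

open Filter Topology

namespace Pool.Agent.Work.MP_86e2e0_an

/-! ### separability -/

theorem separable_Alg : TopologicalSpace.SeparableSpace Alg := by
  set D : Set (H →L[ℂ] H) := Set.range (fun p : ℕ × ℕ × ℕ × ℕ => E p.1 p.2.1 p.2.2.1 p.2.2.2)
    with hD
  have h1 : TopologicalSpace.IsSeparable D := (Set.countable_range _).isSeparable
  have h2 : TopologicalSpace.IsSeparable (Submodule.span ℂ D : Set (H →L[ℂ] H)) := h1.span
  have h3 : (Alg : Set (H →L[ℂ] H)) ⊆ closure (Submodule.span ℂ D : Set (H →L[ℂ] H)) := by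
    refine closure_mono ?_
    rintro T ⟨j, hj⟩
    have hj' : InA j T := hj
    rw [hj'.decomp]
    refine Submodule.sum_mem _ fun v _ => Submodule.sum_mem _ fun x _ =>
      Submodule.sum_mem _ fun x' _ => Submodule.smul_mem _ _ (Submodule.subset_span ?_)
    exact ⟨(j, v, x, x'), rfl⟩
  exact (h2.closure.mono h3).separableSpace

/-! ### limits of functionals -/

lemma exists_ulim {F : Type*} [NormedAddCommGroup F] [NormedSpace ℂ F] (φ : ℕ → F →L[ℂ] ℂ)
    (h : ∀ J T, ‖φ J T‖ ≤ ‖T‖) : ∃ ψ : F →L[ℂ] ℂ, (∀ T, ‖ψ T‖ ≤ ‖T‖) ∧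
      ∀ T, Tendsto (fun J => φ J T) (hyperfilter ℕ : Filter ℕ) (𝓝 (ψ T)) := by
  have h1 : ∀ T : F, ∃ c : ℂ, Tendsto (fun J => φ J T) (hyperfilter ℕ : Filter ℕ) (𝓝 c) := by
    intro T
    have hc : IsCompact (Metric.closedBall (0 : ℂ) ‖T‖) := isCompact_closedBall _ _
    have hle : (((hyperfilter ℕ).map (fun J => φ J T) : Ultrafilter ℂ) : Filter ℂ) ≤
        𝓟 (Metric.closedBall (0 : ℂ) ‖T‖) := by
      rw [Ultrafilter.coe_map, le_principal_iff, mem_map]
      refine Filter.univ_mem' fun J => ?_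
      simp only [Set.mem_preimage, mem_closedBall_zero_iff]
      exact h J T
    obtain ⟨c, _, hc'⟩ := hc.ultrafilter_le_nhds _ hle
    exact ⟨c, hc'⟩
  choose ψ hψ using h1
  refine ⟨LinearMap.mkContinuous
    { toFun := ψ
      map_add' := fun S T => ?_
      map_smul' := fun c T => ?_ } 1 (fun T => ?_), fun T => ?_, hψ⟩
  · refine tendsto_nhds_unique (hψ (S + T)) ?_
    simpa using (hψ S).add (hψ T)
  · refine tendsto_nhds_unique (hψ (c • T)) ?_
    simpa using (hψ T).const_mul c
  · rw [one_mul]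
    exact le_of_tendsto (hψ T).norm (Eventually.of_forall fun J => h J T)
  · exact le_of_tendsto (hψ T).norm (Eventually.of_forall fun J => h J T)

/-- normalised trace over the `n`-th block of level `J`. -/
noncomputable def phi (n J : ℕ) : (H →L[ℂ] H) →L[ℂ] ℂ :=
  ((dd J : ℂ)⁻¹) • ∑ x ∈ Finset.range (dd J), entL (x + dd J * n) (x + dd J * n)

lemma phi_apply (n J : ℕ) (T : H →L[ℂ] H) : phi n J T =
    ((dd J : ℂ)⁻¹) * ∑ x ∈ Finset.range (dd J), ent T (x + dd J * n) (x + dd J * n) := by
  unfold phi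
  rw [smul_apply, sum_apply, smul_eq_mul]
  rfl

lemma dd_pos' (J : ℕ) : (0 : ℝ) < dd J := by exact_mod_cast dd_pos J

lemma phi_norm_le (n J : ℕ) (T : H →L[ℂ] H) : ‖phi n J T‖ ≤ ‖T‖ := by
  rw [phi_apply, norm_mul, norm_inv, Complex.norm_natCast]
  have h1 : ‖∑ x ∈ Finset.range (dd J), ent T (x + dd J * n) (x + dd J * n)‖ ≤ dd J * ‖T‖ := by
    refine (norm_sum_le _ _).trans ?_
    refine (Finset.sum_le_sum fun x _ => ent_norm_le T _ _).trans ?_
    rw [Finset.sum_const, Finset.card_range, nsmul_eq_mul]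
  rw [inv_mul_le_iff₀ (dd_pos' J)]
  exact h1

lemma phi_tr {n J : ℕ} {S T : H →L[ℂ] H} (hS : InA J S) (hT : InA J T) :
    phi n J (S * T) = phi n J (T * S) := by
  rw [phi_apply, phi_apply]
  congr 1
  have h1 : ∀ x ∈ Finset.range (dd J), ent (S * T) (x + dd J * n) (x + dd J * n) =
      ∑ z ∈ Finset.range (dd J), ent S (x + dd J * n) (z + dd J * n) *
        ent T (z + dd J * n) (x + dd J * n) := fun x hx =>
    hT.ent_mul_block _ _ _ (Finset.mem_range.mp hx)
  have h2 : ∀ x ∈ Finset.range (dd J), ent (T * S) (x + dd J * n) (x + dd J * n) =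
      ∑ z ∈ Finset.range (dd J), ent T (x + dd J * n) (z + dd J * n) *
        ent S (z + dd J * n) (x + dd J * n) := fun x hx =>
    hS.ent_mul_block _ _ _ (Finset.mem_range.mp hx)
  rw [Finset.sum_congr rfl h1, Finset.sum_congr rfl h2, Finset.sum_comm]
  refine Finset.sum_congr rfl fun x _ => Finset.sum_congr rfl fun z _ => mul_comm _ _

lemma ent_star_mul_self (T : H →L[ℂ] H) (y : ℕ) : ent (star T * T) y y = ((‖T (dl y)‖ ^ 2 : ℝ) : ℂ) := by
  rw [ent_eq_inner, mul_apply_eq_comp, ContinuousLinearMap.star_eq_adjoint,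
    ContinuousLinearMap.adjoint_inner_right, inner_self_eq_norm_sq_to_K]
  norm_cast

lemma phi_pos (n J : ℕ) (T : H →L[ℂ] H) : 0 ≤ (phi n J (star T * T)).re := by
  rw [phi_apply]
  have h1 : ((dd J : ℂ)⁻¹) * ∑ x ∈ Finset.range (dd J),
      ent (star T * T) (x + dd J * n) (x + dd J * n) =
      (((dd J : ℝ)⁻¹ * ∑ x ∈ Finset.range (dd J), ‖T (dl (x + dd J * n))‖ ^ 2 : ℝ) : ℂ) := by
    push_cast
    congr 1
    refine Finset.sum_congr rfl fun x _ => ?_
    rw [ent_star_mul_self]
    push_cast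
    rfl
  rw [h1, Complex.ofReal_re]
  positivity

/-- the limit traces -/
noncomputable def tau (n : ℕ) : (H →L[ℂ] H) →L[ℂ] ℂ := (exists_ulim (phi n) (phi_norm_le n)).choose

lemma tau_norm_le (n : ℕ) (T : H →L[ℂ] H) : ‖tau n T‖ ≤ ‖T‖ :=
  (exists_ulim (phi n) (phi_norm_le n)).choose_spec.1 T

lemma tau_tendsto (n : ℕ) (T : H →L[ℂ] H) :
    Tendsto (fun J => phi n J T) (hyperfilter ℕ : Filter ℕ) (𝓝 (tau n T)) :=
  (exists_ulim (phi n) (phi_norm_le n)).choose_spec.2 T

lemma ge_mem (j : ℕ) : ∀ᶠ J in (hyperfilter ℕ : Filter ℕ), j ≤ J := by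
  have : (hyperfilter ℕ : Filter ℕ) ≤ atTop := by
    rw [← Nat.cofinite_eq_atTop]; exact Filter.hyperfilter_le_cofinite
  exact this (eventually_ge_atTop j)

lemma tau_pos (n : ℕ) (T : H →L[ℂ] H) : 0 ≤ (tau n (star T * T)).re :=
  ge_of_tendsto ((Complex.continuous_re.tendsto _).comp (tau_tendsto n (star T * T)))
    (Eventually.of_forall fun J => phi_pos n J T)

lemma tau_tr_InA (n : ℕ) {j : ℕ} {S T : H →L[ℂ] H} (hS : InA j S) (hT : InA j T) :
    tau n (S * T) = tau n (T * S) := by
  refine tendsto_nhds_unique (tau_tendsto n (S * T)) ?_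
  refine (tau_tendsto n (T * S)).congr' ?_
  filter_upwards [ge_mem j] with J hJ
  exact phi_tr (hT.mono hJ) (hS.mono hJ)

lemma tau_tr (n : ℕ) {S T : H →L[ℂ] H} (hS : S ∈ Alg) (hT : T ∈ Alg) :
    tau n (S * T) = tau n (T * S) := by
  have h1 : ∀ S' ∈ Ainf, tau n (S' * T) = tau n (T * S') := by
    intro S' hS'
    have hcl : IsClosed {T : H →L[ℂ] H | tau n (S' * T) = tau n (T * S')} :=
      isClosed_eq ((tau n).continuous.comp (continuous_const.mul continuous_id))
        ((tau n).continuous.comp (continuous_id.mul continuous_const))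
    have hsub : (Ainf : Set (H →L[ℂ] H)) ⊆ {T : H →L[ℂ] H | tau n (S' * T) = tau n (T * S')} := by
      rintro T' ⟨i, hi⟩
      obtain ⟨j, hj⟩ := hS'
      exact tau_tr_InA n (hj.mono (le_max_left j i)) (hi.mono (le_max_right j i))
    exact closure_minimal hsub hcl hT
  have hcl : IsClosed {S : H →L[ℂ] H | tau n (S * T) = tau n (T * S)} :=
    isClosed_eq ((tau n).continuous.comp (continuous_id.mul continuous_const))
      ((tau n).continuous.comp (continuous_const.mul continuous_id))
  exact closure_minimal (fun S' hS' => h1 S' hS') hcl hS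

/-! ### counting alive positions -/

/-- number of positions in the `q`-th block of level `J` which are alive at level `j`. -/
def cnt (j J q : ℕ) : ℕ :=
  ((Finset.range (dd J)).filter (fun x => lam j ((x + dd J * q) / dd j) ≤ j)).card

lemma cnt_le (j J q : ℕ) : cnt j J q ≤ dd J := by
  unfold cnt
  exact (Finset.card_filter_le _ _).trans (by rw [Finset.card_range])

lemma cnt_succ (j J Q : ℕ) : cnt j (J + 1) Q = ∑ t ∈ Finset.range (kk J), cnt j J (t + kk J * Q) := by
  unfold cnt
  have h1 : (Finset.range (dd (J + 1))).filter (fun x => lam j ((x + dd (J + 1) * Q) / dd j) ≤ j) =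
      (Finset.range (kk J)).biUnion (fun t => ((Finset.range (dd J)).filter
        (fun x => lam j ((x + dd J * (t + kk J * Q)) / dd j) ≤ j)).image
          (fun x => x + dd J * t)) := by
    ext X
    simp only [Finset.mem_filter, Finset.mem_range, Finset.mem_biUnion, Finset.mem_image]
    constructor
    · rintro ⟨h1, h2⟩
      obtain ⟨x, t, hx, ht, e1, e2⟩ := split_lt h1 Q
      refine ⟨t, ht, x, ⟨hx, ?_⟩, e2.symm⟩
      rw [← e1]; exact h2
    · rintro ⟨t, ht, x, ⟨hx, h2⟩, rfl⟩
      have e : x + dd J * t + dd (J + 1) * Q = x + dd J * (t + kk J * Q) := by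
        rw [dd_succ]; ring
      refine ⟨?_, by rw [e]; exact h2⟩
      rw [dd_succ]
      calc x + dd J * t < dd J + dd J * t := by omega
        _ = dd J * (t + 1) := by ring
        _ ≤ dd J * kk J := Nat.mul_le_mul_left _ ht
  rw [h1, Finset.card_biUnion]
  · refine Finset.sum_congr rfl fun t _ => ?_
    rw [Finset.card_image_of_injective]
    intro a b hab
    simpa using hab
  · intro t _ t' _ htt
    rw [Function.onFun, Finset.disjoint_left]
    intro X hX hX'
    simp only [Finset.mem_image, Finset.mem_filter, Finset.mem_range] at hX hX'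
    obtain ⟨x, ⟨hx, _⟩, rfl⟩ := hX
    obtain ⟨x', ⟨hx', _⟩, e⟩ := hX'
    have e1 := block_div (d := dd J) (q := t) hx
    have e2 := block_div (d := dd J) (q := t') hx'
    rw [e] at e2
    exact htt (e1.symm.trans e2)

lemma cnt_self {j q : ℕ} (h : lam j q ≤ j) : cnt j j q = dd j := by
  unfold cnt
  rw [Finset.filter_true_of_mem, Finset.card_range]
  intro x hx
  rw [block_div (Finset.mem_range.mp hx)]
  exact h

lemma cnt_dead {j J : ℕ} (hJ : j ≤ J) {q : ℕ} (h : J < lam J q) : cnt j J q = 0 := by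
  induction J, hJ using Nat.le_induction generalizing q with
  | base =>
    unfold cnt
    rw [Finset.card_eq_zero, Finset.filter_eq_empty_iff]
    intro x hx
    rw [block_div (Finset.mem_range.mp hx)]
    omega
  | succ J hJ ih =>
    rw [cnt_succ]
    refine Finset.sum_eq_zero fun t ht => ih ?_
    exact lam_dead (Finset.mem_range.mp ht) h

lemma kk_real (J : ℕ) : ((J : ℝ) + 1) = (kk J : ℝ) * (1 / 2) ^ (J + 1) := by
  unfold kk
  push_cast
  rw [mul_assoc, ← mul_pow]
  norm_num

/-- upper bound for later labels -/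
lemma cnt_upper {j n : ℕ} (hjn : j < n) {J : ℕ} (hJ : n ≤ J) {q : ℕ} (h : lam J q = n) :
    (cnt j J q : ℝ) ≤ (2 * (1 / 2) ^ n - (1 / 2) ^ J) * dd J := by
  induction J, hJ using Nat.le_induction generalizing q with
  | base =>
    obtain ⟨m, rfl⟩ : ∃ m, n = m + 1 := ⟨n - 1, by omega⟩
    rw [cnt_succ]
    have h1 : ∀ t ∈ Finset.range (kk m), (cnt j m (t + kk m * q) : ℝ) ≤
        if t < m + 1 then (dd m : ℝ) else 0 := by
      intro t ht
      split_ifs with h2
      · exact_mod_cast cnt_le j m _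
      · rw [cnt_dead (by omega)]
        · simp
        · rw [lam_child m q t (Finset.mem_range.mp ht), h, ss, if_neg (by omega)]
          omega
    push_cast
    refine (Finset.sum_le_sum h1).trans ?_
    rw [← Finset.sum_filter]
    have h3 : (Finset.range (kk m)).filter (fun t => t < m + 1) = Finset.range (m + 1) := by
      ext t
      simp only [Finset.mem_filter, Finset.mem_range]
      have := lt_kk m
      omega
    rw [h3, Finset.sum_const, Finset.card_range, nsmul_eq_mul, dd_succ]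
    push_cast
    rw [kk_real m]
    apply le_of_eq
    ring
  | succ J hJ ih =>
    rw [cnt_succ]
    have h1 : ∀ t ∈ Finset.range (kk J), (cnt j J (t + kk J * q) : ℝ) ≤
        (2 * (1 / 2) ^ n - (1 / 2) ^ J) * dd J + if t < J + 1 then (dd J : ℝ) else 0 := by
      intro t ht
      have hpos : (0 : ℝ) ≤ 2 * (1 / 2) ^ n - (1 / 2) ^ J := by
        have : (1 / 2 : ℝ) ^ J ≤ (1 / 2) ^ n :=
          pow_le_pow_of_le_one (by norm_num) (by norm_num) hJ
        have h4 : (0 : ℝ) ≤ (1 / 2) ^ n := by positivity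
        linarith
      split_ifs with h2
      · have : (cnt j J (t + kk J * q) : ℝ) ≤ dd J := by exact_mod_cast cnt_le j J _
        have h5 := mul_nonneg hpos (dd_pos' J).le
        linarith
      · rw [add_zero]
        refine ih ?_
        rw [lam_child J q t (Finset.mem_range.mp ht), h, ss, if_neg (by omega)]
    push_cast
    refine (Finset.sum_le_sum h1).trans ?_
    rw [Finset.sum_add_distrib, ← Finset.sum_filter]
    have h3 : (Finset.range (kk J)).filter (fun t => t < J + 1) = Finset.range (J + 1) := by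
      ext t
      simp only [Finset.mem_filter, Finset.mem_range]
      have := lt_kk J
      omega
    rw [h3, Finset.sum_const, Finset.sum_const, Finset.card_range, Finset.card_range,
      nsmul_eq_mul, nsmul_eq_mul, dd_succ]
    push_cast
    rw [kk_real J]
    apply le_of_eq
    ring

/-- lower bound for early labels -/
lemma cnt_lower {j n : ℕ} (hjn : n ≤ j) {J : ℕ} (hJ : j ≤ J) {q : ℕ} (h : lam J q = n) :
    (1 - (1 / 2) ^ j + (1 / 2) ^ J) * dd J ≤ (cnt j J q : ℝ) := by
  induction J, hJ using Nat.le_induction generalizing q with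
  | base => rw [cnt_self (by omega)]; apply le_of_eq; ring
  | succ J hJ ih =>
    rw [cnt_succ]
    have hb0 : (0 : ℝ) ≤ 1 - (1 / 2) ^ j + (1 / 2) ^ J := by
      have : (1 / 2 : ℝ) ^ j ≤ 1 := pow_le_one₀ (by norm_num) (by norm_num)
      have h4 : (0 : ℝ) ≤ (1 / 2) ^ J := by positivity
      linarith
    have hb1 : 1 - (1 / 2) ^ j + (1 / 2) ^ J ≤ (1 : ℝ) := by
      have : (1 / 2 : ℝ) ^ J ≤ (1 / 2) ^ j :=
        pow_le_pow_of_le_one (by norm_num) (by norm_num) hJ
      linarith
    have h1 : ∀ t ∈ Finset.range (kk J), (1 - (1 / 2) ^ j + (1 / 2) ^ J) * dd J -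
        (if t < J + 1 then (1 - (1 / 2) ^ j + (1 / 2) ^ J) * (dd J : ℝ) else 0) ≤
        (cnt j J (t + kk J * q) : ℝ) := by
      intro t ht
      split_ifs with h2
      · rw [sub_self]; positivity
      · rw [sub_zero]
        refine ih ?_
        rw [lam_child J q t (Finset.mem_range.mp ht), h, ss, if_neg (by omega)]
    push_cast
    refine le_trans ?_ (Finset.sum_le_sum h1)
    rw [Finset.sum_sub_distrib, ← Finset.sum_filter]
    have h3 : (Finset.range (kk J)).filter (fun t => t < J + 1) = Finset.range (J + 1) := by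
      ext t
      simp only [Finset.mem_filter, Finset.mem_range]
      have := lt_kk J
      omega
    rw [h3, Finset.sum_const, Finset.sum_const, Finset.card_range, Finset.card_range,
      nsmul_eq_mul, nsmul_eq_mul, dd_succ]
    push_cast
    rw [kk_real J]
    have hk : (0 : ℝ) ≤ kk J := by positivity
    have hd := (dd_pos' J).le
    have hp : (0 : ℝ) ≤ (1 / 2) ^ (J + 1) := by positivity
    have h5 : (1 / 2 : ℝ) ^ J = 2 * (1 / 2) ^ (J + 1) := by rw [pow_succ]; ring
    rw [h5] at hb0 hb1 ⊢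
    have h6 : (kk J : ℝ) * (1 / 2) ^ (J + 1) * ((1 - (1 / 2) ^ j + 2 * (1 / 2) ^ (J + 1)) * dd J) ≤
        (kk J : ℝ) * (1 / 2) ^ (J + 1) * (1 * dd J) := by
      gcongr
    nlinarith [h6]

end Pool.Agent.Work.MP_86e2e0_an
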