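import Mathlib
import Pool.Agent.Work.MP_86e2e0_an.General
import Pool.Agent.Work.MP_86e2e0_an.Trace

open scoped MultiplierAlgebra
open Filter Topology

namespace Pool.Agent.Work.MP_86e2e0_an

/-! ### smallness of the traces -/

lemma InA.ent_dead {j : ℕ} {T : H →L[ℂ] H} (hT : InA j T) {y : ℕ} (h : j < lam j (y / dd j)) :
    ent T y y = 0 := by
  have := hT.dead _ h (y % dd j) (Nat.mod_lt _ (dd_pos j)) (y % dd j) (Nat.mod_lt _ (dd_pos j))
  rwa [Nat.mod_add_div] at this

lemma phi_le_cnt (n J : ℕ) {j : ℕ} {T : H →L[ℂ] H} (hT : InA j T) :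
    ‖phi n J T‖ ≤ (dd J : ℝ)⁻¹ * (cnt j J n * ‖T‖) := by
  rw [phi_apply, norm_mul, norm_inv, Complex.norm_natCast]
  have hd := dd_pos' J
  gcongr
  have h1 : ∑ x ∈ Finset.range (dd J), ent T (x + dd J * n) (x + dd J * n) =
      ∑ x ∈ (Finset.range (dd J)).filter (fun x => lam j ((x + dd J * n) / dd j) ≤ j),
        ent T (x + dd J * n) (x + dd J * n) := by
    rw [Finset.sum_filter]
    refine Finset.sum_congr rfl fun x _ => ?_
    split_ifs with h
    · rfl
    · exact hT.ent_dead (by omega)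
  rw [h1]
  refine (norm_sum_le _ _).trans ?_
  refine (Finset.sum_le_sum fun x _ => ent_norm_le T _ _).trans ?_
  rw [Finset.sum_const, nsmul_eq_mul]
  rfl

lemma tau_small {n j : ℕ} (hjn : j < n) {T : H →L[ℂ] H} (hT : InA j T) :
    ‖tau n T‖ ≤ 2 * (1 / 2) ^ n * ‖T‖ := by
  refine le_of_tendsto (tau_tendsto n T).norm ?_
  filter_upwards [ge_mem n] with J hJ
  refine (phi_le_cnt n J hT).trans ?_
  have hd := dd_pos' J
  rw [inv_mul_le_iff₀ hd]
  have h1 := cnt_upper hjn hJ (lam_self hJ)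
  have h2 : (0 : ℝ) ≤ (1 / 2) ^ J := by positivity
  have h3 : (cnt j J n : ℝ) ≤ dd J * (2 * (1 / 2) ^ n) := by nlinarith
  calc (cnt j J n : ℝ) * ‖T‖ ≤ dd J * (2 * (1 / 2) ^ n) * ‖T‖ := by gcongr
    _ = _ := by ring

lemma tau_lim {T : H →L[ℂ] H} (hT : T ∈ Alg) : Tendsto (fun n => tau n T) atTop (𝓝 0) := by
  rw [Metric.tendsto_atTop]
  intro ε hε
  obtain ⟨j, _, S, hS, hTS⟩ := Alg_approx hT (ε := ε / 2) (by positivity) 0
  have h1 : Tendsto (fun n : ℕ => 2 * (1 / 2 : ℝ) ^ n * ‖S‖) atTop (𝓝 0) := by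
    have := ((tendsto_pow_atTop_nhds_zero_of_lt_one (r := (1 / 2 : ℝ)) (by norm_num)
      (by norm_num)).const_mul 2).mul_const ‖S‖
    simpa using this
  obtain ⟨N, hN⟩ := (Metric.tendsto_atTop.mp h1) (ε / 2) (by positivity)
  refine ⟨max N (j + 1), fun n hn => ?_⟩
  rw [dist_zero_right]
  have h2 : tau n T = tau n (T - S) + tau n S := by rw [← map_add, sub_add_cancel]
  rw [h2]
  have h3 := hN n ((le_max_left _ _).trans hn)
  rw [dist_zero_right, Real.norm_of_nonneg (by positivity)] at h3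
  have h4 := tau_small (n := n) (j := j) (by have := le_max_right N (j + 1); omega) hS
  calc ‖tau n (T - S) + tau n S‖ ≤ ‖tau n (T - S)‖ + ‖tau n S‖ := norm_add_le _ _
    _ ≤ ‖T - S‖ + 2 * (1 / 2) ^ n * ‖S‖ := add_le_add (tau_norm_le n _) h4
    _ < ε / 2 + ε / 2 := add_lt_add hTS h3
    _ = ε := by ring

/-! ### the units of the finite-dimensional algebras -/

/-- the unit of the `j`-th algebra -/
noncomputable def PP (j : ℕ) : H →L[ℂ] H :=
  shift (fun y => lam j (y / dd j) ≤ j) id (Function.injective_id.injOn)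

lemma ent_PP (j y y' : ℕ) : ent (PP j) y y' = if lam j (y / dd j) ≤ j ∧ y = y' then 1 else 0 :=
  ent_shift _ _ _ _ _

lemma PP_norm_le (j : ℕ) : ‖PP j‖ ≤ 1 := shift_norm_le _ _ _

lemma InA_PP (j : ℕ) : InA j (PP j) where
  off y y' h := by
    rw [ent_PP, if_neg]
    rintro ⟨_, rfl⟩
    exact h rfl
  dead q hq x hx x' hx' := by
    rw [ent_PP, if_neg]
    rw [block_div hx]
    omega
  same q q' hq x hx x' hx' := by
    rw [ent_PP, ent_PP, block_div hx, block_div hx, hq]
    simp only [Nat.add_right_cancel_iff]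

lemma PP_star (j : ℕ) : star (PP j) = PP j := by
  refine op_ext fun y y' => ?_
  rw [ent_star, ent_PP, ent_PP]
  rcases eq_or_ne y y' with rfl | h
  · split_ifs <;> simp
  · simp [h, h.symm]

lemma ent_mul_PP (T : H →L[ℂ] H) (j y y' : ℕ) :
    ent (T * PP j) y y' = if lam j (y' / dd j) ≤ j then ent T y y' else 0 := by
  have h : ∀ z, z ∉ ({y'} : Finset ℕ) → ent (PP j) z y' = 0 := by
    intro z hz
    rw [ent_PP, if_neg]
    rintro ⟨_, rfl⟩
    simp at hz
  rw [ent_mul h, Finset.sum_singleton, ent_PP]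
  by_cases h : lam j (y' / dd j) ≤ j <;> simp [h]

lemma PP_mul_self (j : ℕ) : PP j * PP j = PP j := by
  refine op_ext fun y y' => ?_
  rw [ent_mul_PP, ent_PP]
  rcases eq_or_ne y y' with rfl | h
  · by_cases h2 : lam j (y / dd j) ≤ j <;> simp [h2]
  · simp [h]

lemma tau_PP {n j : ℕ} (hnj : n ≤ j) (hj : 1 ≤ j) : 1 / 2 ≤ (tau n (star (PP j) * PP j)).re := by
  rw [PP_star, PP_mul_self]
  refine ge_of_tendsto ((Complex.continuous_re.tendsto _).comp (tau_tendsto n (PP j))) ?_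
  filter_upwards [ge_mem j] with J hJ
  have h1 : phi n J (PP j) = (((dd J : ℝ)⁻¹ * (cnt j J n : ℝ) : ℝ) : ℂ) := by
    rw [phi_apply]
    push_cast
    congr 1
    have h2 : ∀ x ∈ Finset.range (dd J), ent (PP j) (x + dd J * n) (x + dd J * n) =
        if lam j ((x + dd J * n) / dd j) ≤ j then 1 else 0 := by
      intro x _
      rw [ent_PP]
      simp
    rw [Finset.sum_congr rfl h2, ← Finset.sum_filter, Finset.sum_const, nsmul_eq_mul, mul_one]
    rfl
  change 1 / 2 ≤ (phi n J (PP j)).re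
  rw [h1, Complex.ofReal_re]
  have hd := dd_pos' J
  have h3 := cnt_lower hnj hJ (lam_self (hnj.trans hJ))
  have h4 : (1 / 2 : ℝ) ^ j ≤ 1 / 2 := by
    calc (1 / 2 : ℝ) ^ j ≤ (1 / 2) ^ 1 := pow_le_pow_of_le_one (by norm_num) (by norm_num) hj
      _ = 1 / 2 := pow_one _
  have h5 : (0 : ℝ) ≤ (1 / 2) ^ J := by positivity
  rw [le_inv_mul_iff₀ hd]
  nlinarith

/-! ### the traces on the algebra -/

/-- restriction of `tau n` to the algebra -/
noncomputable def tauA (n : ℕ) : Alg →L[ℂ] ℂ :=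
  LinearMap.mkContinuous
    { toFun := fun T => tau n (T : H →L[ℂ] H)
      map_add' := fun _ _ => by
        rw [← map_add]; rfl
      map_smul' := fun _ _ => by
        rw [← map_smul]; rfl } 1 (fun T => by rw [one_mul]; exact tau_norm_le n _)

lemma tauA_apply (n : ℕ) (T : Alg) : tauA n T = tau n (T : H →L[ℂ] H) := rfl

lemma isTr_tauA (n : ℕ) : IsTr (tauA n) where
  pos T := tau_pos n _
  tr S T := tau_tr n S.2 T.2
  norm_le T := tau_norm_le n _

/-! ### a good approximate identity -/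

/-- the approximate identity -/
noncomputable def pA (j : ℕ) : Alg := ⟨PP j, (InA_PP j).mem⟩

lemma pA_star (j : ℕ) : star (pA j) = pA j := Subtype.ext (PP_star j)

lemma pA_mul_self (j : ℕ) : pA j * pA j = pA j := Subtype.ext (PP_mul_self j)

lemma alive_mono {j y : ℕ} (h : lam j (y / dd j) ≤ j) : lam (j + 1) (y / dd (j + 1)) ≤ j + 1 := by
  by_contra hcon
  push Not at hcon
  have hk : 0 < kk j := by have := one_lt_kk j; omega
  have h1 := lam_dead (j := j) (Q := y / dd (j + 1)) (t := (y / dd j) % kk j)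
    (Nat.mod_lt _ hk) hcon
  have h2 : (y / dd j) % kk j + kk j * (y / dd (j + 1)) = y / dd j := by
    rw [dd_succ, ← Nat.div_div_eq_div_mul]
    exact Nat.mod_add_div _ _
  rw [h2] at h1
  omega

lemma PP_mul_succ (j : ℕ) : PP (j + 1) * PP j = PP j := by
  refine op_ext fun y y' => ?_
  rw [ent_mul_PP, ent_PP, ent_PP]
  rcases eq_or_ne y y' with rfl | h
  · by_cases h2 : lam j (y / dd j) ≤ j
    · simp [h2, alive_mono h2]
    · simp [h2]
  · simp [h]

lemma pA_mul_succ (j : ℕ) : pA (j + 1) * pA j = pA j := Subtype.ext (PP_mul_succ j)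

lemma pA_mul_le {i j : ℕ} (h : i ≤ j) : pA j * pA i = pA i := by
  induction j, h using Nat.le_induction with
  | base => exact pA_mul_self i
  | succ j _ ih => rw [← ih, ← mul_assoc, pA_mul_succ]

lemma pA_mul_le' {i j : ℕ} (h : i ≤ j) : pA i * pA j = pA i := by
  have := congrArg star (pA_mul_le h)
  rwa [star_mul, pA_star, pA_star] at this

lemma PP_mul_InA {j : ℕ} {T : H →L[ℂ] H} (hT : InA j T) : T * PP j = T := by
  refine InA.ext (hT.mul (InA_PP j)) hT fun q x hx x' hx' => ?_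
  rw [ent_mul_PP, block_div hx']
  split_ifs with h
  · rfl
  · exact (hT.dead q (by omega) x hx x' hx').symm

lemma pA_norm_le (j : ℕ) : ‖pA j‖ ≤ 1 := PP_norm_le j

lemma tendsto_mul_pA (a : Alg) : Tendsto (fun n => a * pA n) atTop (𝓝 a) := by
  rw [Metric.tendsto_atTop]
  intro ε hε
  obtain ⟨j, _, S, hS, hTS⟩ := Alg_approx a.2 (ε := ε / 2) (by positivity) 0
  refine ⟨j, fun n hn => ?_⟩
  set s : Alg := ⟨S, hS.mem⟩ with hs
  have h1 : s * pA n = s := Subtype.ext (PP_mul_InA (hS.mono hn))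
  have h2 : a * pA n - a = (a - s) * pA n - (a - s) := by rw [sub_mul, h1]; abel
  rw [dist_eq_norm, h2]
  have h3 : ‖a - s‖ < ε / 2 := hTS
  calc ‖(a - s) * pA n - (a - s)‖ ≤ ‖(a - s) * pA n‖ + ‖a - s‖ := norm_sub_le _ _
    _ ≤ ‖a - s‖ * ‖pA n‖ + ‖a - s‖ := by gcongr; exact norm_mul_le _ _
    _ ≤ ‖a - s‖ * 1 + ‖a - s‖ := by gcongr; exact pA_norm_le n
    _ < ε := by linarith

lemma tendsto_pA_mul (a : Alg) : Tendsto (fun n => pA n * a) atTop (𝓝 a) := by
  have h := (tendsto_mul_pA (star a)).star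
  rw [star_star] at h
  refine h.congr fun n => ?_
  rw [star_mul, star_star, pA_star]

lemma isPos_pA_sub {i j : ℕ} (h : i ≤ j) : IsPos (pA j - pA i) :=
  ⟨pA j - pA i, by
    rw [star_sub, pA_star, pA_star]
    simp only [mul_sub, sub_mul, pA_mul_self, pA_mul_le h, pA_mul_le' h]
    abel⟩

lemma pA_sub_norm (j : ℕ) : ‖pA (j + 1) - pA j‖ = 1 := by
  refine le_antisymm ?_ ?_
  · -- norm of a projection
    have h1 : star (pA (j + 1) - pA j) * (pA (j + 1) - pA j) = pA (j + 1) - pA j := by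
      rw [star_sub, pA_star, pA_star]
      simp only [mul_sub, sub_mul, pA_mul_self, pA_mul_le (Nat.le_succ j),
        pA_mul_le' (Nat.le_succ j)]
      abel
    have h2 := CStarRing.norm_star_mul_self (x := pA (j + 1) - pA j)
    rw [h1] at h2
    by_contra hcon
    push Not at hcon
    nlinarith
  · -- a diagonal entry equal to one
    set y : ℕ := dd j * (j + 1 + kk j * (j + 1)) with hy
    have e1 : y / dd j = j + 1 + kk j * (j + 1) := Nat.mul_div_cancel_left _ (dd_pos j)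
    have e2 : y / dd (j + 1) = j + 1 := by
      rw [dd_succ, ← Nat.div_div_eq_div_mul, e1]
      exact block_div (lt_kk j)
    have e3 : lam (j + 1) (y / dd (j + 1)) ≤ j + 1 := by
      rw [e2, lam_self le_rfl]
    have e4 : ¬ lam j (y / dd j) ≤ j := by
      rw [e1, lam_child j (j + 1) (j + 1) (lt_kk j), lam_self le_rfl, ss, if_neg (by omega)]
      omega
    have h1 : ent (PP (j + 1) - PP j) y y = 1 := by
      rw [ent_sub, ent_PP, ent_PP]
      simp [e3, e4]
    have h2 := ent_norm_le (PP (j + 1) - PP j) y y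
    rw [h1, norm_one] at h2
    exact h2

lemma ext0_nat (e : ℕ → Alg) (k : ℤ) (hk : 0 ≤ k) : ext0 e k = e k.toNat := by
  unfold ext0; rw [if_pos hk]

lemma ext0_neg (e : ℕ → Alg) (k : ℤ) (hk : k < 0) : ext0 e k = 0 := by
  unfold ext0; rw [if_neg (by omega)]

lemma ext_mul {k l : ℤ} (h : k ≤ l) : ext0 pA l * ext0 pA k = ext0 pA k := by
  rcases lt_or_ge k 0 with hk | hk
  · rw [ext0_neg _ _ hk, mul_zero]
  · rw [ext0_nat _ _ hk, ext0_nat _ _ (hk.trans h)]
    exact pA_mul_le (by omega)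

lemma ext_star (k : ℤ) : star (ext0 pA k) = ext0 pA k := by
  rcases lt_or_ge k 0 with hk | hk
  · rw [ext0_neg _ _ hk, star_zero]
  · rw [ext0_nat _ _ hk, pA_star]

lemma ext_mul' {k l : ℤ} (h : k ≤ l) : ext0 pA k * ext0 pA l = ext0 pA k := by
  have := congrArg star (ext_mul h)
  rwa [star_mul, ext_star, ext_star] at this

lemma isPos_ext_sub {k l : ℤ} (h : k ≤ l) : IsPos (ext0 pA l - ext0 pA k) :=
  ⟨ext0 pA l - ext0 pA k, by
    rw [star_sub, ext_star, ext_star]
    simp only [mul_sub, sub_mul, ext_mul h, ext_mul' h, ext_mul (le_refl k), ext_mul (le_refl l)]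
    abel⟩

lemma ext_norm_le (k : ℤ) : ‖ext0 pA k‖ ≤ 1 := by
  rcases lt_or_ge k 0 with hk | hk
  · rw [ext0_neg _ _ hk, norm_zero]; norm_num
  · rw [ext0_nat _ _ hk]; exact pA_norm_le _

theorem isGood_pA : IsGood pA where
  pos n := ⟨pA n, by rw [pA_star, pA_mul_self]⟩
  norm_le := pA_norm_le
  tendsto_left := tendsto_pA_mul
  tendsto_right := tendsto_mul_pA
  mul_eq := pA_mul_succ
  norm_sub := pA_sub_norm
  interval := by
    refine ⟨fun a b => gI pA a b, ?_, ?_⟩
    · intro a b hab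
      have h1 : star (gI pA a b) * gI pA a b = gI pA a b := by
        unfold gI
        have h : (a : ℤ) - 1 ≤ b := by omega
        rw [star_sub, ext_star, ext_star]
        simp only [mul_sub, sub_mul, ext_mul h, ext_mul' h, ext_mul (le_refl ((a : ℤ) - 1)),
          ext_mul (le_refl (b : ℤ))]
        abel
      have h2 : star (gI pA a b) = gI pA a b := by
        unfold gI; rw [star_sub, ext_star, ext_star]
      refine ⟨⟨_, h1.symm⟩, ?_, ?_, ?_⟩
      · have h3 := CStarRing.norm_star_mul_self (x := gI pA a b)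
        rw [h1] at h3
        by_contra hcon
        push Not at hcon
        nlinarith
      · have h4 : ext0 pA ((b : ℤ) + 1) - ext0 pA ((a : ℤ) - 2) - gI pA a b =
            (ext0 pA ((b : ℤ) + 1) - ext0 pA b) + (ext0 pA ((a : ℤ) - 1) - ext0 pA ((a : ℤ) - 2)) := by
          unfold gI; abel
        rw [h4]
        exact (isPos_ext_sub (by omega)).add (isPos_ext_sub (by omega))
      · rw [h2] at h1; exact h1
    · intro a b a' b' hab hab' h
      have k1 : (b : ℤ) ≤ b' := by omega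
      have k2 : (b : ℤ) ≤ (a' : ℤ) - 1 := by omega
      have k3 : (a : ℤ) - 1 ≤ b' := by omega
      have k4 : (a : ℤ) - 1 ≤ (a' : ℤ) - 1 := by omega
      change gI pA a b * gI pA a' b' = 0
      unfold gI
      simp only [mul_sub, sub_mul, ext_mul' k1, ext_mul' k2, ext_mul' k3, ext_mul' k4]
      abel

/-- Main theorem for the concrete algebra. -/
theorem main : ∃ (A : Type) (_ : NonUnitalCStarAlgebra A), IsSimpleCStar A ∧
    TopologicalSpace.SeparableSpace A ∧ (¬ ∃ u : A, ∀ a : A, u * a = a ∧ a * u = a) ∧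
    (∃ e : ℕ → A, IsGood e) ∧
    ∃ I : TwoSidedIdeal 𝓜(ℂ, A), IsClosed (I : Set 𝓜(ℂ, A)) ∧ (∀ a : A, (a : 𝓜(ℂ, A)) ∈ I) ∧
      I ≠ ⊤ ∧ IsNonmeagre I := by
  obtain ⟨I, h1, h2, h3, h4⟩ := exists_nonmeagre (A := Alg) tauA isTr_tauA
    (fun a => tau_lim a.2) (δ := 1 / 2) (by norm_num)
    (fun n => ⟨pA (max n 1), pA_norm_le _, tau_PP (le_max_left _ _) (le_max_right _ _)⟩)
  refine ⟨Alg, inferInstance, isSimple_Alg, separable_Alg, ?_, ⟨pA, isGood_pA⟩, I, h1, h2, ?_, h4⟩
  · rintro ⟨u, hu⟩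
    apply h3
    have : (u : 𝓜(ℂ, Alg)) = 1 := by
      refine DoubleCentralizer.ext _ _ _ _ (Prod.ext ?_ ?_)
      · ext1 a; exact (hu a).1
      · ext1 a; exact (hu a).2
    rw [← this]
    exact h2 u
  · intro h
    rw [h] at h3
    exact h3 trivial

end Pool.Agent.Work.MP_86e2e0_an
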